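import Pool.Agent.Lib.MP_efb7ef_gt.Tab

/-! Bounds for the coefficients: the series converges for `q ≤ 23/50`, with a small tail. -/

namespace Pool.Agent.Lib.MP_efb7ef_gt

open Finset

def wt (p : ℤ) : ℚ := if p = 0 then 0 else if p.natAbs = 1 then 1 else 11 / 20

noncomputable def xn (n : ℕ) : ℚ := ∑ r ∈ Icc (-(n : ℤ)) n, |cf n r|

noncomputable def yn (n : ℕ) : ℚ := ∑ r ∈ Icc (-(n : ℤ)) n, |cf n r| * wt r

def rho (r l : ℤ) : ℚ := wt (r - l) * |al (2 * r - l) / al (2 * (r - l))|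

def col (k : ℕ) (r : ℤ) : ℚ := ∑ i ∈ range (k + 1), |bc i * bc (k - i)| * rho r (k - 2 * i)

def hh (j : ℕ) : ℚ := 5 * (23 / 50) ^ (j + 1) * ((j + 1) * (27 / 50) + 23 / 50) / (27 / 50) ^ 2

theorem wt_nonneg (p : ℤ) : 0 ≤ wt p := by unfold wt; split_ifs <;> norm_num

theorem wt_le (p : ℤ) : wt p ≤ 1 := by unfold wt; split_ifs <;> norm_num

theorem rho_nonneg (r l : ℤ) : 0 ≤ rho r l := mul_nonneg (wt_nonneg _) (abs_nonneg _)

theorem col_nonneg (k : ℕ) (r : ℤ) : 0 ≤ col k r :=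
  sum_nonneg fun _ _ => mul_nonneg (abs_nonneg _) (rho_nonneg _ _)

theorem xn_nonneg (n : ℕ) : 0 ≤ xn n := sum_nonneg fun _ _ => abs_nonneg _

theorem yn_nonneg (n : ℕ) : 0 ≤ yn n :=
  sum_nonneg fun _ _ => mul_nonneg (abs_nonneg _) (wt_nonneg _)

theorem xn_le_yn (n : ℕ) : 11 / 20 * xn (n + 1) ≤ yn (n + 1) := by
  rw [xn, yn, mul_sum]
  refine sum_le_sum fun r _ => ?_
  by_cases h : r = 0
  · simp [h, cf_succ_zero]
  · rw [mul_comm]
    refine mul_le_mul_of_nonneg_left ?_ (abs_nonneg _)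
    unfold wt; rw [if_neg h]; split_ifs <;> norm_num

theorem yn_step (N : ℕ) : yn (N + 1) ≤
    ∑ n ∈ range (N + 1), ∑ r ∈ Icc (-(n : ℤ)) n, |cf n r| * col (N - n + 1) r := by
  rw [← sum_range_reflect]
  have h1 : ∀ p : ℤ, |cf (N + 1) p| * wt p ≤ ∑ k ∈ range (N + 1), ∑ i ∈ range (k + 2),
      |cf (N - k) (p + (k + 1 - 2 * i))| * (|bc i * bc (k + 1 - i)| *
        rho (p + (k + 1 - 2 * i)) (k + 1 - 2 * i)) := by
    intro p
    by_cases hp : p = 0
    · rw [hp, cf_succ_zero, abs_zero, zero_mul]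
      exact sum_nonneg fun _ _ => sum_nonneg fun _ _ =>
        mul_nonneg (abs_nonneg _) (mul_nonneg (abs_nonneg _) (rho_nonneg _ _))
    rw [cf_succ N hp, neg_div, abs_neg, sum_div]
    refine (mul_le_mul_of_nonneg_right (abs_sum_le_sum_abs _ _) (wt_nonneg p)).trans ?_
    rw [sum_mul]
    refine sum_le_sum fun k _ => ?_
    rw [sum_div]
    refine (mul_le_mul_of_nonneg_right (abs_sum_le_sum_abs _ _) (wt_nonneg p)).trans ?_
    rw [sum_mul]
    refine sum_le_sum fun i _ => le_of_eq ?_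
    have e1 : 2 * (p + ((k : ℤ) + 1 - 2 * i)) - (k + 1 - 2 * i) = 2 * p + (k + 1 - 2 * i) := by ring
    rw [rho, e1, add_sub_cancel_right]
    simp only [abs_div, abs_mul]
    ring
  refine (sum_le_sum fun p _ => h1 p).trans ?_
  rw [sum_comm]
  refine sum_le_sum fun k hk => le_of_eq ?_
  have hk := mem_range.1 hk
  have e1 : N + 1 - 1 - k = N - k := by omega
  have e2 : N - (N - k) + 1 = k + 1 := by omega
  rw [e1, e2, sum_comm]
  simp only [col, mul_sum]
  rw [sum_comm (s := Icc _ _)]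
  refine sum_congr rfl fun i hi => ?_
  have hi := mem_range.1 hi
  have := sum_shift (fun r => |cf (N - k) r| * (|bc i * bc (k + 1 - i)| *
    rho r (k + 1 - 2 * i))) (N - k) (N + 1) (k + 1 - 2 * i)
    (fun r hr => by rw [cf_supp _ _ (Or.inl hr)]; simp)
    (by have : |(k : ℤ) + 1 - 2 * i| ≤ k + 1 := abs_le.2 ⟨by omega, by omega⟩
        omega)
  simpa using this

theorem rho_eq (r l : ℤ) : rho r l = wt (r - l) *
    (((|1 - 4 * (2 * (r - l)) ^ 2| : ℤ) : ℚ) / ((|1 - 4 * (2 * r - l) ^ 2| : ℤ) : ℚ)) := by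
  have h1 := den_ne (2 * r - l)
  have h2 := den_ne (2 * (r - l))
  rw [rho, al, al, div_div_div_eq, one_mul, mul_one, abs_div]
  push_cast
  rfl

theorem rho_le_of {r l : ℤ} {A B : ℤ} (hB : 0 < B)
    (h : B * |1 - 4 * (2 * (r - l)) ^ 2| ≤ A * |1 - 4 * (2 * r - l) ^ 2|) :
    rho r l ≤ wt (r - l) * (A / B) := by
  rw [rho_eq]
  refine mul_le_mul_of_nonneg_left ?_ (wt_nonneg _)
  have h1 : (0 : ℚ) < ((|1 - 4 * (2 * r - l) ^ 2| : ℤ) : ℚ) := by
    have := one_le_den (2 * r - l)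
    push_cast at this ⊢
    linarith
  rw [div_le_div_iff₀ h1 (by exact_mod_cast hB), mul_comm]
  exact_mod_cast h

theorem rho_crude (r l : ℤ) : rho r l ≤ 4 * l ^ 2 + 1 := by
  by_cases hp : r - l = 0
  · rw [rho, hp]; simp [wt]; positivity
  have h : 1 * |1 - 4 * (2 * (r - l)) ^ 2| ≤ (4 * l ^ 2 + 1) * |1 - 4 * (2 * r - l) ^ 2| := by
    have hp2 : 1 ≤ (r - l) ^ 2 := by have := sq_pos_of_ne_zero hp; omega
    rw [abs_of_neg (by nlinarith), one_mul]
    obtain ⟨m, hm⟩ : ∃ m, m = 2 * r - l := ⟨_, rfl⟩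
    have e : 2 * (r - l) = m - l := by omega
    rw [e, ← hm]
    by_cases h0 : m = 0
    · simp [h0]; omega
    have hm2 : 1 ≤ m ^ 2 := by have := sq_pos_of_ne_zero h0; omega
    rw [abs_of_neg (by nlinarith)]
    by_cases hl : l = 0
    · simp [hl]
    have hl2 : 1 ≤ l ^ 2 := by have := sq_pos_of_ne_zero hl; omega
    nlinarith [sq_nonneg (m + l), mul_nonneg (sub_nonneg.2 hm2) (sub_nonneg.2 hl2),
      sq_nonneg (m * l + 1), sq_nonneg (m * l - 1)]
  have := rho_le_of one_pos h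
  push_cast at this
  have h2 := wt_le (r - l)
  have h3 : (0 : ℚ) ≤ 4 * l ^ 2 + 1 := by positivity
  nlinarith

theorem col_crude (k : ℕ) (r : ℤ) : col (k + 1) r ≤ 5 * (k + 1) := by
  have h1 : col (k + 1) r ≤ sb (k + 1) * (4 * (k + 1) ^ 2 + 1) := by
    rw [col, sb, sum_mul]
    refine sum_le_sum fun i hi => mul_le_mul_of_nonneg_left ((rho_crude _ _).trans ?_)
      (abs_nonneg _)
    have hi : (i : ℚ) ≤ k + 1 := by have := mem_range.1 hi; exact_mod_cast (by omega : i ≤ k + 1)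
    have : (0 : ℚ) ≤ i := i.cast_nonneg
    push_cast
    nlinarith
  have h2 := sb_le k
  have h3 := sb_nonneg (k + 1)
  have h4 := sb_le_one (k + 1)
  have : (0 : ℚ) ≤ k := k.cast_nonneg
  nlinarith

theorem hh_nonneg (j : ℕ) : 0 ≤ hh j := by unfold hh; positivity

theorem sum_crude (j M : ℕ) (r : ℤ) :
    ∑ k ∈ range M, (if j ≤ k then (23 / 50 : ℚ) ^ (k + 1) * col (k + 1) r else 0) ≤ hh j := by
  have h : ∀ M, ∑ k ∈ range M, (if j ≤ k then (23 / 50 : ℚ) ^ (k + 1) * col (k + 1) r else 0) +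
      hh (max j M) ≤ hh j := by
    intro M
    induction M with
    | zero => simp
    | succ M ih =>
      rw [sum_range_succ]
      split_ifs with hj
      · rw [max_eq_right hj] at ih
        rw [max_eq_right (by omega)]
        have h1 := mul_le_mul_of_nonneg_left (col_crude M r)
          (by positivity : (0 : ℚ) ≤ (23 / 50) ^ (M + 1))
        have h2 : hh M = hh (M + 1) + (23 / 50) ^ (M + 1) * (5 * (M + 1)) := by
          unfold hh; push_cast; ring
        linarith
      · rw [max_eq_left (by omega)] at ih ⊢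
        linarith
  linarith [h M, hh_nonneg (max j M)]

theorem col_small : ∀ j ∈ range 49, j ≠ 24 →
    ∑ k ∈ range 12, (23 / 50 : ℚ) ^ (k + 1) * col (k + 1) ((j : ℤ) - 24) + hh 12 ≤
      7 / 8 * wt ((j : ℤ) - 24) := by decide +kernel

theorem col_large : 11 / 20 * (36 / 25) * ∑ k ∈ range 12, (23 / 50 : ℚ) ^ (k + 1) * sb (k + 1) +
    hh 12 ≤ 7 / 8 * (11 / 20) := by decide +kernel

theorem col_fin (r : ℤ) (hr : r ≠ 0) :
    ∑ k ∈ range 12, (23 / 50 : ℚ) ^ (k + 1) * col (k + 1) r + hh 12 ≤ 7 / 8 * wt r := by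
  by_cases h : r.natAbs ≤ 24
  · have := col_small (r + 24).toNat (mem_range.2 (by omega)) (by omega)
    rwa [show (((r + 24).toNat : ℕ) : ℤ) - 24 = r by omega] at this
  have hw : wt r = 11 / 20 := by rw [wt, if_neg hr, if_neg (by omega)]
  rw [hw]
  refine le_trans (add_le_add_left ?_ _) col_large
  rw [mul_sum]
  refine sum_le_sum fun k hk => ?_
  have hk := mem_range.1 hk
  rw [mul_left_comm]
  refine mul_le_mul_of_nonneg_left ?_ (by positivity)
  rw [col, sb, mul_sum]
  refine sum_le_sum fun i hi => ?_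
  have hi := mem_range.1 hi
  rw [mul_comm]
  refine mul_le_mul_of_nonneg_right ?_ (abs_nonneg _)
  obtain ⟨l, hl⟩ : ∃ l : ℤ, l = ((k + 1 : ℕ) : ℤ) - 2 * i := ⟨_, rfl⟩
  rw [← hl]
  have l1 : -12 ≤ l := by omega
  have l2 : l ≤ 12 := by omega
  have := rho_le_of (r := r) (l := l) (A := 36) (B := 25) (by norm_num) (by
    rcases (by omega : 25 ≤ r ∨ r ≤ -25) with h' | h'
    · rw [abs_of_neg (by nlinarith), abs_of_neg (by nlinarith)]; nlinarith
    · rw [abs_of_neg (by nlinarith), abs_of_neg (by nlinarith)]; nlinarith)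
  rw [wt, if_neg (by omega), if_neg (by omega)] at this
  simpa using this

theorem col_sum (r : ℤ) (hr : r ≠ 0) (M : ℕ) :
    ∑ k ∈ range M, (23 / 50 : ℚ) ^ (k + 1) * col (k + 1) r ≤ 7 / 8 * wt r := by
  refine le_trans ?_ (col_fin r hr)
  have h1 : ∑ k ∈ range M, (23 / 50 : ℚ) ^ (k + 1) * col (k + 1) r =
      ∑ k ∈ range M, (if k < 12 then (23 / 50 : ℚ) ^ (k + 1) * col (k + 1) r else 0) +
      ∑ k ∈ range M, (if 12 ≤ k then (23 / 50 : ℚ) ^ (k + 1) * col (k + 1) r else 0) := by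
    rw [← sum_add_distrib]
    refine sum_congr rfl fun k _ => ?_
    by_cases h : k < 12
    · rw [if_pos h, if_neg (by omega), add_zero]
    · rw [if_neg h, if_pos (by omega), zero_add]
  rw [h1]
  refine add_le_add ?_ (sum_crude 12 M r)
  rw [← sum_filter]
  refine sum_le_sum_of_subset_of_nonneg (fun k hk => mem_range.2 (mem_filter.1 hk).2)
    fun k _ _ => mul_nonneg (by positivity) (col_nonneg _ _)

/-- The table, extended by zero. -/
def cz (n : ℕ) (r : ℤ) : ℤ := if (n + r.natAbs) % 2 = 0 ∧ r.natAbs ≤ n then ct n r else 0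

theorem cz_eq {n : ℕ} (hn : n ≤ 40) (r : ℤ) : (cz n r : ℚ) = 4 ^ n * dD * cf n r := by
  unfold cz
  split_ifs with h
  · exact ct_eq n hn r h.2 (by omega)
  · rw [cf_supp n r (by rw [lt_abs]; omega)]; simp

theorem sum_Icc_eq {M : Type*} [AddCommMonoid M] (g : ℤ → M) (n : ℕ) :
    ∑ r ∈ Icc (-(n : ℤ)) n, g r = ∑ j ∈ range (2 * n + 1), g (j - n) := by
  symm
  refine sum_bij (fun j _ => (j : ℤ) - n) (fun j hj => ?_) (fun _ _ _ _ e => by omega)
    (fun r hr => ⟨(r + n).toNat, ?_, ?_⟩) fun _ _ => rfl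
  · have := mem_range.1 hj
    rw [mem_Icc]; omega
  · rw [mem_Icc] at hr
    rw [mem_range]; omega
  · rw [mem_Icc] at hr
    omega

def xbs : List ℕ := [2000, 5000, 5550, 15999, 9056, 34454, 16174, 75870, 18684, 184248, 78563,
  404573, 146642, 912916, 242259, 2158594, 568432, 4931997, 1559722, 11224158, 3757575, 25885984,
  8002021, 59637546, 17833043, 137173076, 42489763, 315607006, 99354976, 726011127, 225713436,
  1670541620, 514645062, 3845319694, 1189887256, 8849243186, 2753188536, 20361159297, 6328255581,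
  46857253019, 14523094176]

def xb (n : ℕ) : ℚ := xbs.getD n 0 / 1000

theorem xb_chk : ∀ n < 41, 1000 * ∑ j ∈ range (2 * n + 1), (cz n (j - n)).natAbs ≤
    xbs.getD n 0 * (4 ^ n * dD) := by decide +kernel

theorem xn_le_xb {n : ℕ} (hn : n ≤ 40) : xn n ≤ xb n := by
  have h := xb_chk n (by omega)
  have hD : (0 : ℚ) < 4 ^ n * dD := by have := dD_pos; positivity
  have h' : (1000 : ℚ) * ∑ j ∈ range (2 * n + 1), |(cz n (j - n) : ℚ)| ≤
      xbs.getD n 0 * (4 ^ n * dD) := by
    simp only [← Int.cast_abs, ← Nat.cast_natAbs]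
    exact_mod_cast h
  simp only [cz_eq hn, abs_mul, abs_of_pos hD, ← mul_sum] at h'
  rw [xn, sum_Icc_eq, xb, le_div_iff₀ (by norm_num)]
  refine le_of_mul_le_mul_right ?_ hD
  linarith

theorem res_le : ∑ n ∈ range 41, (23 / 50 : ℚ) ^ n * xb n * hh (40 - n) ≤ 1 / 16000 := by
  decide +kernel

theorem tail_y (M : ℕ) :
    ∑ n ∈ range M, (if 41 ≤ n then (23 / 50 : ℚ) ^ n * yn n else 0) ≤ 1 / 2000 := by
  induction M with
  | zero => simp
  | succ M ih =>
    rw [sum_range_succ', if_neg (by omega), add_zero]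
    set G : ℕ → ℕ → ℚ := fun n k => (23 / 50) ^ n * ∑ r ∈ Icc (-(n : ℤ)) n, |cf n r| *
      (if 40 - n ≤ k then (23 / 50 : ℚ) ^ (k + 1) * col (k + 1) r else 0) with hG
    have h1 : ∀ N, (if 41 ≤ N + 1 then (23 / 50 : ℚ) ^ (N + 1) * yn (N + 1) else 0) ≤
        ∑ n ∈ range (N + 1), G n (N - n) := by
      intro N
      split_ifs with hN
      · refine (mul_le_mul_of_nonneg_left (yn_step N) (by positivity)).trans ?_
        rw [mul_sum]
        refine sum_le_sum fun n hn => le_of_eq ?_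
        have hn := mem_range.1 hn
        have : (23 / 50 : ℚ) ^ (N + 1) = (23 / 50) ^ n * (23 / 50) ^ (N - n + 1) := by
          rw [← pow_add]; congr 1; omega
        simp only [hG, if_pos (show 40 - n ≤ N - n by omega), this, mul_sum]
        exact sum_congr rfl fun r _ => by ring
      · refine sum_nonneg fun n _ => mul_nonneg (by positivity) (sum_nonneg fun r _ =>
          mul_nonneg (abs_nonneg _) ?_)
        split_ifs
        · exact mul_nonneg (by positivity) (col_nonneg _ _)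
        · exact le_rfl
    refine (sum_le_sum fun N _ => h1 N).trans ?_
    rw [sum_range_diag_flip]
    have h2 : ∀ n, ∑ k ∈ range (M - n), G n k ≤
        (if n < 41 then (23 / 50 : ℚ) ^ n * xb n * hh (40 - n) else 0) +
          7 / 8 * (if 41 ≤ n then (23 / 50 : ℚ) ^ n * yn n else 0) := by
      intro n
      simp only [hG, ← mul_sum]
      rw [sum_comm]
      simp only [← mul_sum]
      by_cases hn : n < 41
      · rw [if_pos hn, if_neg (by omega), mul_zero, add_zero, mul_assoc]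
        refine mul_le_mul_of_nonneg_left ?_ (by positivity)
        refine le_trans ?_ (mul_le_mul_of_nonneg_right (xn_le_xb (by omega)) (hh_nonneg _))
        rw [xn, sum_mul]
        exact sum_le_sum fun r _ => mul_le_mul_of_nonneg_left (sum_crude _ _ _) (abs_nonneg _)
      · rw [if_neg hn, if_pos (by omega), zero_add, mul_left_comm]
        refine mul_le_mul_of_nonneg_left ?_ (by positivity)
        rw [yn, mul_sum]
        refine sum_le_sum fun r _ => ?_
        by_cases hr : r = 0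
        · obtain ⟨m, rfl⟩ : ∃ m, n = m + 1 := ⟨n - 1, by omega⟩
          simp [hr, cf_succ_zero]
        simp only [show 40 - n = 0 by omega, zero_le, if_true]
        rw [mul_left_comm]
        exact mul_le_mul_of_nonneg_left (col_sum r hr _) (abs_nonneg _)
    refine (sum_le_sum fun n _ => h2 n).trans ?_
    rw [sum_add_distrib, ← mul_sum, ← sum_filter]
    have h3 : ∑ n ∈ range M with n < 41, (23 / 50 : ℚ) ^ n * xb n * hh (40 - n) ≤ 1 / 16000 := by
      refine le_trans (sum_le_sum_of_subset_of_nonneg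
        (fun k hk => mem_range.2 (mem_filter.1 hk).2) fun k _ _ => ?_) res_le
      have := hh_nonneg (40 - k)
      unfold xb
      positivity
    linarith

theorem tail_x (M : ℕ) : ∑ n ∈ range M, (23 / 50 : ℚ) ^ (n + 41) * xn (n + 41) ≤ 1 / 1000 := by
  have h := tail_y (41 + M)
  rw [sum_range_add, sum_eq_zero (fun n hn => if_neg (by have := mem_range.1 hn; omega)),
    zero_add] at h
  have h2 : 11 / 20 * ∑ n ∈ range M, (23 / 50 : ℚ) ^ (n + 41) * xn (n + 41) ≤ 1 / 2000 := by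
    refine le_trans ?_ h
    rw [mul_sum]
    refine sum_le_sum fun n _ => ?_
    rw [if_pos (by omega), mul_left_comm, add_comm 41 n]
    exact mul_le_mul_of_nonneg_left (xn_le_yn (n + 40)) (by positivity)
  linarith

end Pool.Agent.Lib.MP_efb7ef_gt
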