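import Mathlib

/-!
Magic numbers, ellipses, and the rational coefficients of the series for the magic number.
-/

namespace Pool.Agent.Lib.MP_efb7ef_gt

open Finset

/-- `m` is a magic number of `E`: for all points `x_1, ..., x_n` of `E` (`n ≥ 1`) some `y ∈ E`
has average distance `m` to them. -/
def IsMagic (E : Set (EuclideanSpace ℝ (Fin 2))) (m : ℝ) : Prop :=
  ∀ n : ℕ, 0 < n → ∀ x : Fin n → EuclideanSpace ℝ (Fin 2), (∀ i, x i ∈ E) →
    ∃ y ∈ E, (∑ i, dist (x i) y) / n = m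

/-- The ellipse curve with half axes `a` and `b`. -/
def ellipse (a b : ℝ) : Set (EuclideanSpace ℝ (Fin 2)) :=
  {p | p 0 ^ 2 / a ^ 2 + p 1 ^ 2 / b ^ 2 = 1}

/-- The Taylor coefficients of `sqrt (1 - z)`. -/
def bc : ℕ → ℚ
  | 0 => 1
  | i + 1 => bc i * (2 * i - 1) / (2 * i + 2)

/-- The number `1 / (1 - 4 k ^ 2)`. -/
def al (k : ℤ) : ℚ := 1 / (1 - 4 * k ^ 2)

/-- A triangular array of rational numbers, given by a recursion in `n`. -/
def cf : ℕ → ℤ → ℚ
  | 0, p => if p = 0 then 1 else 0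
  | n + 1, p => if p = 0 then 0 else
      -(∑ k ∈ range (n + 1), ∑ i ∈ range (k + 2),
        bc i * bc (k + 1 - i) * al (2 * p + (k + 1 - 2 * i)) * cf (n - k) (p + (k + 1 - 2 * i)))
        / al (2 * p)

/-- The coefficients of the series: `1, 0, 13/12, 0, -57761/33600, ...` -/
def mc (n : ℕ) : ℚ :=
  ∑ k ∈ range (n + 1), ∑ i ∈ range (k + 1),
    bc i * bc (k - i) * al (k - 2 * i) * cf (n - k) (k - 2 * i)

end Pool.Agent.Lib.MP_efb7ef_gt
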