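import Pool.Agent.Lib.MP_efb7ef_gt.Defs

-- part Pool.Agent.Lib.MP_efb7ef_gt.Basic
section

/-! Elementary facts on the coefficients. -/

namespace Pool.Agent.Lib.MP_efb7ef_gt

open Finset

theorem bc_succ (i : ℕ) : ((i : ℚ) + 1) * bc (i + 1) = (i - 1 / 2) * bc i := by
  rw [bc]; field_simp

/-- The square of the series of `sqrt (1 - z)`. -/
def tb (k : ℕ) : ℚ := ∑ x ∈ antidiagonal k, bc x.1 * bc x.2

theorem tb_aux (k : ℕ) : 2 * ∑ x ∈ antidiagonal k, (x.1 : ℚ) * (bc x.1 * bc x.2) = k * tb k := by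
  have h := Finset.Nat.sum_antidiagonal_swap (n := k) (f := fun x => (x.1 : ℚ) * (bc x.1 * bc x.2))
  rw [two_mul]
  nth_rewrite 1 [← h]
  rw [← sum_add_distrib, tb, mul_sum]
  refine sum_congr rfl fun x hx => ?_
  rw [← mem_antidiagonal.1 hx]
  simp only [Prod.fst_swap, Prod.snd_swap]
  push_cast; ring

theorem tb_succ (k : ℕ) : ((k : ℚ) + 1) * tb (k + 1) = (k - 1) * tb k := by
  have h1 := tb_aux (k + 1)
  have h2 := tb_aux k
  rw [Finset.Nat.sum_antidiagonal_succ] at h1
  have h3 : ∑ x ∈ antidiagonal k, (((x.1 + 1 : ℕ) : ℚ)) * (bc (x.1 + 1) * bc x.2) =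
      ∑ x ∈ antidiagonal k, (x.1 : ℚ) * (bc x.1 * bc x.2) - tb k / 2 := by
    rw [tb, sum_div, ← sum_sub_distrib]
    refine sum_congr rfl fun x _ => ?_
    have := bc_succ x.1
    push_cast
    linear_combination bc x.2 * this
  simp only [h3] at h1
  push_cast at h1
  linarith

theorem tb_zero : tb 0 = 1 := by simp [tb, bc]

theorem tb_one : tb 1 = -1 := by
  have := tb_succ 0
  rw [tb_zero] at this
  simpa using this

theorem tb_two (k : ℕ) : tb (k + 2) = 0 := by
  induction k with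
  | zero =>
    have := tb_succ 1
    norm_num at this
    exact this
  | succ k ih =>
    have := tb_succ (k + 2)
    rw [ih, mul_zero] at this
    exact (mul_eq_zero.1 this).resolve_left (by positivity)

theorem bc_neg (k : ℕ) : bc (k + 1) < 0 := by
  induction k with
  | zero => norm_num [bc]
  | succ k ih =>
    rw [bc]
    refine div_neg_of_neg_of_pos (mul_neg_of_neg_of_pos ih ?_) (by positivity)
    push_cast
    have : (0 : ℚ) ≤ k := k.cast_nonneg
    linarith

theorem bc_ge (k : ℕ) : -1 ≤ 4 * ((k : ℚ) + 2) * bc (k + 2) := by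
  induction k with
  | zero => norm_num [bc]
  | succ k ih =>
    have h := bc_succ (k + 2)
    have h' := bc_neg (k + 1)
    push_cast at h ⊢
    have e : bc (k + 1 + 2) = bc (k + 2 + 1) := rfl
    have e' : bc (k + 1 + 1) = bc (k + 2) := rfl
    rw [e]
    rw [e'] at h'
    nlinarith

/-- The sum of the absolute values. -/
def sb (k : ℕ) : ℚ := ∑ i ∈ range (k + 1), |bc i * bc (k - i)|

theorem sb_nonneg (k : ℕ) : 0 ≤ sb k := sum_nonneg fun _ _ => abs_nonneg _

theorem sb_eq (k : ℕ) : sb (k + 1) = tb (k + 1) - 4 * bc (k + 1) := by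
  rw [tb, Finset.Nat.sum_antidiagonal_eq_sum_range_succ_mk, sb, sum_range_succ', sum_range_succ,
    sum_range_succ', sum_range_succ]
  have h : ∑ i ∈ range k, |bc (i + 1) * bc (k + 1 - (i + 1))| =
      ∑ i ∈ range k, bc (i + 1) * bc (k + 1 - (i + 1)) := by
    refine sum_congr rfl fun i hi => abs_of_pos ?_
    have : k + 1 - (i + 1) = (k - i - 1) + 1 := by have := mem_range.1 hi; omega
    rw [this]
    exact mul_pos_of_neg_of_neg (bc_neg _) (bc_neg _)
  have h0 : bc 0 = 1 := rfl
  simp only [h, Nat.sub_self, Nat.sub_zero, h0, mul_one, one_mul, abs_of_neg (bc_neg k)]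
  ring

theorem sb_le (k : ℕ) : ((k : ℚ) + 1) * sb (k + 1) ≤ 1 := by
  rw [sb_eq]
  cases k with
  | zero => rw [tb_one]; norm_num [bc]
  | succ k =>
    have := bc_ge k
    rw [tb_two]
    push_cast
    have e : bc (k + 1 + 1) = bc (k + 2) := rfl
    rw [e]
    linarith

theorem sb_le_one (k : ℕ) : sb k ≤ 1 := by
  cases k with
  | zero => simp [sb, bc]
  | succ k =>
    have := sb_le k
    have := sb_nonneg (k + 1)
    have : (0 : ℚ) ≤ k := k.cast_nonneg
    nlinarith

theorem abs_bc_le (k : ℕ) : |bc k| ≤ 1 := by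
  refine le_trans ?_ (sb_le_one k)
  have := single_le_sum (f := fun i => |bc i * bc (k - i)|) (fun _ _ => abs_nonneg _)
    (mem_range.2 (Nat.succ_pos k))
  simpa [bc, sb] using this

theorem one_le_den (k : ℤ) : (1 : ℚ) ≤ |1 - 4 * (k : ℚ) ^ 2| := by
  by_cases h : k = 0
  · simp [h]
  · have : (1 : ℤ) ≤ k ^ 2 := by have := sq_pos_of_ne_zero h; omega
    have : (1 : ℚ) ≤ (k : ℚ) ^ 2 := by exact_mod_cast this
    rw [abs_of_neg (by linarith)]; linarith

theorem den_ne (k : ℤ) : (1 - 4 * (k : ℚ) ^ 2) ≠ 0 := fun h => by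
  have := one_le_den k
  rw [h] at this; norm_num at this

theorem al_ne (k : ℤ) : al k ≠ 0 := one_div_ne_zero (den_ne k)

theorem abs_al_le (k : ℤ) : |al k| ≤ 1 := by
  rw [al, abs_div, abs_one]
  exact div_le_one_of_le₀ (one_le_den k) (abs_nonneg _)

theorem al_neg (k : ℤ) : al (-k) = al k := by simp [al]

theorem cf_zero (p : ℤ) : cf 0 p = if p = 0 then 1 else 0 := by rw [cf]

theorem cf_succ_zero (n : ℕ) : cf (n + 1) 0 = 0 := by rw [cf]; simp

theorem cf_succ (n : ℕ) {p : ℤ} (hp : p ≠ 0) : cf (n + 1) p =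
    -(∑ k ∈ range (n + 1), ∑ i ∈ range (k + 2),
        bc i * bc (k + 1 - i) * al (2 * p + (k + 1 - 2 * i)) * cf (n - k) (p + (k + 1 - 2 * i)))
        / al (2 * p) := by
  rw [cf, if_neg hp]

theorem cf_supp (n : ℕ) : ∀ p : ℤ, ((n : ℤ) < |p| ∨ ¬ (2 : ℤ) ∣ n + p) → cf n p = 0 := by
  induction n using Nat.strong_induction_on with
  | _ n ih =>
    intro p hp
    cases n with
    | zero =>
      rw [cf_zero, if_neg]
      rintro rfl
      simp at hp
    | succ n =>
      by_cases h0 : p = 0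
      · rw [h0, cf_succ_zero]
      rw [cf_succ n h0, sum_eq_zero, neg_zero, zero_div]
      intro k hk
      refine sum_eq_zero fun i hi => ?_
      have hk := mem_range.1 hk
      have hi := mem_range.1 hi
      rw [ih (n - k) (by omega), mul_zero]
      rcases hp with hp | hp
      · left
        rw [lt_abs] at hp ⊢
        omega
      · right; omega

theorem cf_neg (n : ℕ) : ∀ p : ℤ, cf n (-p) = cf n p := by
  induction n using Nat.strong_induction_on with
  | _ n ih =>
    intro p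
    cases n with
    | zero => simp [cf_zero]
    | succ n =>
      by_cases h0 : p = 0
      · rw [h0, neg_zero]
      rw [cf_succ n h0, cf_succ n (neg_ne_zero.2 h0), mul_neg, al_neg]
      congr 2
      refine sum_congr rfl fun k hk => ?_
      rw [← sum_range_reflect]
      refine sum_congr rfl fun i hi => ?_
      have hk := mem_range.1 hk
      have hi := mem_range.1 hi
      have e1 : k + 2 - 1 - i = k + 1 - i := by omega
      have e2 : k + 1 - (k + 1 - i) = i := by omega
      have e3 : ((k + 1 - i : ℕ) : ℤ) = k + 1 - i := by omega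
      rw [e1, e2, e3, ← al_neg, ← ih (n - k) (by omega), mul_comm (bc (k + 1 - i))]
      congr 2
      · congr 1; ring
      · ring

/-- The full convolution. -/
def ee (n : ℕ) (p : ℤ) : ℚ :=
  ∑ k ∈ range (n + 1), ∑ i ∈ range (k + 1),
    bc i * bc (k - i) * al (2 * p + (k - 2 * i)) * cf (n - k) (p + (k - 2 * i))

theorem ee_zero (n : ℕ) : ee n 0 = mc n := by simp [ee, mc]

theorem ee_ne (n : ℕ) {p : ℤ} (hp : p ≠ 0) : ee n p = 0 := by
  cases n with
  | zero => simp [ee, cf_zero, hp]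
  | succ n =>
    rw [ee, sum_range_succ']
    have h := cf_succ n hp
    rw [eq_div_iff (al_ne _)] at h
    have h0 : bc 0 = 1 := rfl
    simp only [Nat.add_sub_add_right, zero_add, range_one, sum_singleton, Nat.sub_zero, h0,
      Nat.cast_zero, mul_zero, sub_zero, add_zero, mul_one, one_mul, Nat.cast_add, Nat.cast_one]
    linear_combination h

/-- Shifting a sum over the support. -/
theorem sum_shift {M : Type*} [AddCommMonoid M] (g : ℤ → M) (n N : ℕ) (l : ℤ)
    (hg : ∀ r, (n : ℤ) < |r| → g r = 0) (h : (n : ℤ) + |l| ≤ N) :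
    ∑ p ∈ Icc (-(N : ℤ)) N, g (p + l) = ∑ r ∈ Icc (-(n : ℤ)) n, g r := by
  refine sum_bij_ne_zero (fun p _ _ => p + l) (fun p _ h2 => ?_) (fun p _ _ p' _ _ e => by omega)
    (fun r h1 _ => ⟨r - l, ?_, by simpa, by simp⟩) (fun _ _ _ => rfl)
  · by_contra h3
    refine h2 (hg _ ?_)
    rw [mem_Icc] at h3
    rw [lt_abs]; omega
  · rw [mem_Icc] at h1 ⊢
    have := le_abs_self l
    have := neg_abs_le l
    omega

end Pool.Agent.Lib.MP_efb7ef_gt
end

-- part Pool.Agent.Lib.MP_efb7ef_gt.Magic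
section

/-! Curves with an invariant density: the magic number. -/

namespace Pool.Agent.Lib.MP_efb7ef_gt

open Finset Real MeasureTheory

theorem IsMagic.fintype {Γ : Set (EuclideanSpace ℝ (Fin 2))} {m : ℝ} (h : IsMagic Γ m)
    {ι : Type} [Fintype ι] (hι : 0 < Fintype.card ι) (x : ι → EuclideanSpace ℝ (Fin 2))
    (hx : ∀ i, x i ∈ Γ) : ∃ y ∈ Γ, ∑ i, dist (x i) y = Fintype.card ι * m := by
  obtain ⟨y, hy, e⟩ := h _ hι (fun i => x ((Fintype.equivFin ι).symm i)) fun i => hx _
  refine ⟨y, hy, ?_⟩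
  rw [(Fintype.equivFin ι).symm.sum_comp fun i => dist (x i) y,
    div_eq_iff (by exact_mod_cast hι.ne')] at e
  rw [e, mul_comm]

variable {γ : ℝ → EuclideanSpace ℝ (Fin 2)} {f : ℝ → ℝ} {L : ℝ}

theorem riemann (hL : ∀ s t, dist (γ s) (γ t) ≤ L * |s - t|) (hf : Continuous f)
    (h1 : ∫ s in (0 : ℝ)..2 * π, f s = 2 * π) : ∃ C : ℝ, 0 < C ∧ ∀ ε > 0,
      ∃ (N : ℕ) (z w : ℕ → ℝ), ∑ j ∈ range N, w j = 1 ∧ ((∀ s, 0 ≤ f s) → ∀ j, 0 ≤ w j) ∧
        ∑ j ∈ range N, |w j| ≤ C ∧ ∀ ψ : EuclideanSpace ℝ (Fin 2) → ℝ,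
          (∀ x y, |ψ x - ψ y| ≤ dist x y) → |∑ j ∈ range N, w j * ψ (γ (z j)) -
            (∫ s in (0 : ℝ)..2 * π, ψ (γ s) * f s) / (2 * π)| ≤ ε := by
  obtain ⟨C, hC⟩ := isCompact_Icc.exists_bound_of_continuousOn (s := Set.Icc 0 (2 * π))
    hf.continuousOn
  have hC0 : 0 ≤ C := (norm_nonneg _).trans (hC 0 ⟨le_rfl, by positivity⟩)
  have hL0 : 0 ≤ L := by simpa using dist_nonneg.trans (hL 1 0)
  refine ⟨C + 1, by positivity, fun ε hε => ?_⟩
  obtain ⟨N, hN⟩ := exists_nat_gt (L * C * (2 * π) / ε)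
  have hN0 : (0 : ℝ) < N := lt_of_le_of_lt (by positivity) hN
  set h : ℝ := 2 * π / N with hh
  have h0 : 0 < h := by positivity
  have hNh : N * h = 2 * π := by rw [hh]; field_simp
  have hadj : ∀ g : ℝ → ℝ, Continuous g →
      ∑ j ∈ range N, ∫ s in (j * h)..((j + 1) * h), g s = ∫ s in (0 : ℝ)..2 * π, g s := by
    intro g hg
    have := intervalIntegral.sum_integral_adjacent_intervals (f := g) (μ := volume)
      (a := fun j : ℕ => j * h) (n := N) fun _ _ => hg.intervalIntegrable _ _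
    simpa [hNh] using this
  have hbd : ∀ j ∈ range N, ∀ (g : ℝ → ℝ) (B : ℝ), (∀ s, j * h ≤ s → s ≤ j * h + h → |g s| ≤ B) →
      |∫ s in (j * h)..((j + 1) * h), g s * f s| ≤ B * C * h := by
    intro j hj g B hg
    have hj : (j : ℝ) + 1 ≤ N := by exact_mod_cast mem_range.1 hj
    have := intervalIntegral.norm_integral_le_of_norm_le_const (a := j * h) (b := (j + 1) * h)
      (C := B * C) (f := fun s => g s * f s) fun s hs => by
        rw [Set.uIoc_of_le (by nlinarith)] at hs
        rw [norm_mul]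
        have a1 := hg s hs.1.le (by linarith [hs.2])
        refine mul_le_mul a1 (hC s ⟨le_trans (by positivity) hs.1.le, ?_⟩) (norm_nonneg _)
          ((abs_nonneg _).trans a1)
        nlinarith [hs.2]
    rwa [show (j + 1) * h - j * h = h by ring, abs_of_pos h0] at this
  refine ⟨N, fun j => j * h, fun j => (∫ s in (j * h)..((j + 1) * h), f s) / (2 * π), ?_,
    fun hp j => ?_, ?_, fun ψ hψ => ?_⟩
  · rw [← sum_div, hadj f hf, h1, div_self (by positivity)]
  · exact div_nonneg (intervalIntegral.integral_nonneg (by nlinarith) fun s _ => hp s)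
      (by positivity)
  · have : ∀ j ∈ range N, |(∫ s in (j * h)..((j + 1) * h), f s) / (2 * π)| ≤ C / N := by
      intro j hj
      have := hbd j hj (fun _ => 1) 1 (by simp)
      simp only [one_mul] at this
      rw [abs_div, abs_of_pos (by positivity : 0 < 2 * π), div_le_iff₀ (by positivity)]
      refine this.trans (le_of_eq ?_)
      rw [hh]; ring
    refine (sum_le_card_nsmul _ _ _ this).trans ?_
    rw [card_range, nsmul_eq_mul, mul_div_cancel₀ _ hN0.ne']
    linarith
  · have hγ : Continuous γ := (LipschitzWith.of_dist_le' (K := L) hL).continuous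
    have hψc : Continuous ψ := (LipschitzWith.mk_one (f := ψ) hψ).continuous
    have hc : Continuous fun s => ψ (γ s) * f s := (hψc.comp hγ).mul hf
    rw [← hadj _ hc, sum_div, ← sum_sub_distrib]
    have : ∀ j ∈ range N, |(∫ s in (j * h)..((j + 1) * h), f s) / (2 * π) * ψ (γ (j * h)) -
        (∫ s in (j * h)..((j + 1) * h), ψ (γ s) * f s) / (2 * π)| ≤ L * h * C * h / (2 * π) := by
      intro j hj
      have := hbd j hj (fun s => ψ (γ (j * h)) - ψ (γ s)) (L * h) fun s a1 a2 =>
        (hψ _ _).trans ((hL _ _).trans (mul_le_mul_of_nonneg_left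
          (abs_le.2 ⟨by linarith, by linarith⟩) hL0))
      simp only [sub_mul] at this
      rw [intervalIntegral.integral_sub (by apply Continuous.intervalIntegrable; fun_prop)
        (hc.intervalIntegrable _ _), intervalIntegral.integral_const_mul] at this
      rw [div_mul_eq_mul_div, ← sub_div, abs_div, abs_of_pos (by positivity : 0 < 2 * π),
        mul_comm]
      exact div_le_div_of_nonneg_right this (by positivity)
    refine ((abs_sum_le_sum_abs _ _).trans (sum_le_card_nsmul _ _ _ this)).trans ?_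
    rw [card_range, nsmul_eq_mul]
    rw [div_lt_iff₀ hε] at hN
    have e : N * (L * h * C * h / (2 * π)) = L * C * (2 * π) / N := by rw [hh]; field_simp
    rw [e, div_le_iff₀ hN0]
    linarith

theorem magic_iff {D M m : ℝ} (hL : ∀ s t, dist (γ s) (γ t) ≤ L * |s - t|)
    (hD : ∀ s t, dist (γ s) (γ t) ≤ D) (hf : Continuous f) (h0 : ∀ s, 0 ≤ f s)
    (h1 : ∫ s in (0 : ℝ)..2 * π, f s = 2 * π)
    (hM : ∀ t, ∫ s in (0 : ℝ)..2 * π, dist (γ t) (γ s) * f s = 2 * π * M) :
    IsMagic (Set.range γ) m ↔ m = M := by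
  have hγ : Continuous γ := (LipschitzWith.of_dist_le' (K := L) hL).continuous
  constructor
  · intro hm
    obtain ⟨C, -, hC⟩ := riemann hL hf h1
    refine eq_of_forall_dist_le fun ε hε => ?_
    obtain ⟨N, z, w, w1, w0, -, hw⟩ := hC (ε / 2) (by positivity)
    have w0 := w0 h0
    have hD0 : 0 ≤ D := dist_nonneg.trans (hD 0 0)
    obtain ⟨K, hK⟩ := exists_nat_gt (N * (D + |m|) / (ε / 2))
    have hK0 : (0 : ℝ) < K := lt_of_le_of_lt (by positivity) hK
    have hcard : ((Fintype.card (Σ j : Fin N, Fin ⌈K * w j⌉₊) : ℕ) : ℝ) =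
        ∑ j ∈ range N, (⌈K * w j⌉₊ : ℝ) := by
      simp [Fin.sum_univ_eq_sum_range (fun j => (⌈K * w j⌉₊ : ℝ))]
    have hpos : (0 : ℝ) < ((Fintype.card (Σ j : Fin N, Fin ⌈K * w j⌉₊) : ℕ) : ℝ) := by
      rw [hcard]
      refine lt_of_lt_of_le ?_ (sum_le_sum fun j _ => Nat.le_ceil _)
      rw [← mul_sum, w1, mul_one]; exact hK0
    obtain ⟨_, ⟨t, rfl⟩, e⟩ := hm.fintype (ι := Σ j : Fin N, Fin ⌈K * w j⌉₊)
      (by exact_mod_cast hpos) (fun x => γ (z x.1)) fun _ => Set.mem_range_self _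
    rw [hcard, Fintype.sum_sigma] at e
    simp only [sum_const, card_univ, Fintype.card_fin, nsmul_eq_mul] at e
    rw [Fin.sum_univ_eq_sum_range (fun j => (⌈K * w j⌉₊ : ℝ) * dist (γ (z j)) (γ t))] at e
    have a1 := hw (fun x => dist (γ t) x) fun x y => by
      rw [dist_comm _ x, dist_comm _ y]; exact abs_dist_sub_le _ _ _
    rw [hM, mul_div_cancel_left₀ _ (by positivity)] at a1
    have a2 : K * (∑ j ∈ range N, w j * dist (γ t) (γ (z j)) - m) =
        ∑ j ∈ range N, (K * w j - ⌈K * w j⌉₊) * (dist (γ (z j)) (γ t) - m) := by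
      simp only [sub_mul, mul_sub, sum_sub_distrib, mul_assoc, ← mul_sum, ← sum_mul, e, w1,
        dist_comm (γ t)]
      ring
    have a3 : |K * (∑ j ∈ range N, w j * dist (γ t) (γ (z j)) - m)| ≤ N * (D + |m|) := by
      rw [a2]
      refine (abs_sum_le_sum_abs _ _).trans ((sum_le_card_nsmul _ _ (D + |m|) fun j _ => ?_).trans
        (by rw [card_range, nsmul_eq_mul]))
      rw [abs_mul]
      refine (mul_le_of_le_one_left (abs_nonneg _) (abs_le.2 ⟨?_, ?_⟩)).trans
        ((abs_sub _ _).trans ?_)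
      · linarith [Nat.ceil_lt_add_one (mul_nonneg hK0.le (w0 j))]
      · linarith [Nat.le_ceil (K * w j)]
      · rw [abs_of_nonneg dist_nonneg]; linarith [hD (z j) t]
    rw [abs_mul, abs_of_pos hK0] at a3
    rw [div_lt_iff₀ (by positivity)] at hK
    have a4 : |∑ j ∈ range N, w j * dist (γ t) (γ (z j)) - m| ≤ ε / 2 :=
      le_of_mul_le_mul_left (by linarith) hK0
    rw [Real.dist_eq]
    rw [abs_le] at a1 a4 ⊢
    constructor <;> linarith [a1.1, a1.2, a4.1, a4.2]
  · rintro rfl n hn x hx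
    choose t ht using hx
    have hn' : (0 : ℝ) < n := by exact_mod_cast hn
    obtain ⟨c, -, hc⟩ := exists_eq_const_mul_intervalIntegral_of_nonneg (μ := volume) (a := 0)
      (b := 2 * π) (f := fun s => ∑ i, dist (γ (t i)) (γ s)) (g := f) (by fun_prop)
      (hf.intervalIntegrable _ _) fun s _ => h0 s
    simp only [sum_mul] at hc
    rw [intervalIntegral.integral_finsetSum fun i _ => by
      apply Continuous.intervalIntegrable; fun_prop, h1, ← sum_mul] at hc
    simp only [hM, sum_const, card_univ, Fintype.card_fin, nsmul_eq_mul] at hc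
    simp only [ht] at hc
    refine ⟨γ c, Set.mem_range_self _, ?_⟩
    rw [div_eq_iff hn'.ne']
    refine mul_right_cancel₀ (by positivity : 2 * π ≠ 0) ?_
    linarith

end Pool.Agent.Lib.MP_efb7ef_gt
end
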