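import Pool.Agent.Lib.MP_efb7ef_gt.Pos
import Pool.Agent.Lib.MP_efb7ef_gt.Magic

/-! The parametrised ellipse. -/

namespace Pool.Agent.Lib.MP_efb7ef_gt

open Finset Real Complex

/-- The usual parametrisation. -/
noncomputable def gam (a b t : ℝ) : EuclideanSpace ℝ (Fin 2) := !₂[a * Real.cos t, b * Real.sin t]

variable {a b : ℝ}

theorem range_gam (ha : a ≠ 0) (hb : b ≠ 0) : Set.range (gam a b) = ellipse a b := by
  ext p
  constructor
  · rintro ⟨t, rfl⟩
    simp only [ellipse, gam, Set.mem_ofPred_eq, Matrix.cons_val_zero, Matrix.cons_val_one,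
      Matrix.cons_val_fin_one]
    field_simp
    exact Real.cos_sq_add_sin_sq t
  · intro hp
    have hp : p 0 ^ 2 / a ^ 2 + p 1 ^ 2 / b ^ 2 = 1 := hp
    set z : ℂ := ((p 0 / a : ℝ) : ℂ) + ((p 1 / b : ℝ) : ℂ) * I with hz
    have hn : ‖z‖ = 1 := by rw [hz, norm_add_mul_I, div_pow, div_pow, hp, Real.sqrt_one]
    have h0 : z ≠ 0 := fun e => by simp [e] at hn
    refine ⟨arg z, ?_⟩
    have h1 := cos_arg h0
    have h2 := sin_arg z
    have e1 : z.re = p 0 / a := by
      rw [hz, add_re, ofReal_re, mul_I_re, ofReal_im, neg_zero, add_zero]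
    have e2 : z.im = p 1 / b := by
      rw [hz, add_im, ofReal_im, mul_I_im, ofReal_re, zero_add]
    rw [hn, div_one, e1] at h1
    rw [hn, div_one, e2] at h2
    ext i
    fin_cases i
    · simp [gam, h1]; field_simp
    · simp [gam, h2]; field_simp

theorem dist_gam (t s : ℝ) : dist (gam a b t) (gam a b s) =
    √((a * (Real.cos t - Real.cos s)) ^ 2 + (b * (Real.sin t - Real.sin s)) ^ 2) := by
  rw [EuclideanSpace.dist_eq]
  simp [gam, Real.dist_eq, mul_sub]

theorem dist_gam_le (ha : 0 ≤ a) (hb : 0 ≤ b) (t s : ℝ) : dist (gam a b t) (gam a b s) ≤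
    a * |Real.cos t - Real.cos s| + b * |Real.sin t - Real.sin s| := by
  rw [dist_gam]
  refine Real.sqrt_le_iff.2 ⟨by positivity, ?_⟩
  have : 0 ≤ a * |Real.cos t - Real.cos s| * (b * |Real.sin t - Real.sin s|) := by positivity
  rw [add_sq, mul_pow, mul_pow, mul_pow, mul_pow, sq_abs, sq_abs]
  linarith

theorem gam_lip (ha : 0 ≤ a) (hb : 0 ≤ b) (t s : ℝ) :
    dist (gam a b t) (gam a b s) ≤ (a + b) * |t - s| := by
  refine (dist_gam_le ha hb t s).trans ?_
  rw [add_mul]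
  exact add_le_add (mul_le_mul_of_nonneg_left (abs_cos_sub_cos_le t s) ha)
    (mul_le_mul_of_nonneg_left (abs_sin_sub_sin_le t s) hb)

theorem gam_diam (ha : 0 ≤ a) (hb : 0 ≤ b) (t s : ℝ) :
    dist (gam a b t) (gam a b s) ≤ (a + b) * 2 := by
  refine (dist_gam_le ha hb t s).trans ?_
  rw [add_mul]
  gcongr
  · linarith [abs_sub (Real.cos t) (Real.cos s), abs_cos_le_one t, abs_cos_le_one s]
  · linarith [abs_sub (Real.sin t) (Real.sin s), abs_sin_le_one t, abs_sin_le_one s]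

theorem dist_gam_eq {R q : ℝ} (hR : 0 ≤ R) (t s : ℝ) :
    dist (gam (R * (1 + q)) (R * (1 - q)) t) (gam (R * (1 + q)) (R * (1 - q)) s) =
      R * (‖cexp (t * I) - cexp (s * I)‖ * ‖1 - q * cexp ((t + s : ℝ) * I)‖) := by
  rw [dist_gam, ← norm_add_mul_I, ← RCLike.norm_conj (1 - q * cexp ((t + s : ℝ) * I)),
    ← norm_mul]
  nth_rewrite 3 [← Real.norm_of_nonneg hR]
  rw [← Complex.norm_real, ← norm_mul]
  congr 1
  have e : (starRingEnd ℂ) (1 - q * cexp ((t + s : ℝ) * I)) =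
      1 - q * (cexp (-t * I) * cexp (-s * I)) := by
    rw [map_sub, map_one, map_mul, conj_ofReal, ← exp_conj, ← Complex.exp_add]
    simp only [map_mul, conj_ofReal, conj_I]
    congr 3; push_cast; ring
  have h1 : cexp (t * I) * cexp (-t * I) = 1 := by rw [← Complex.exp_add]; simp
  have h2 : cexp (s * I) * cexp (-s * I) = 1 := by rw [← Complex.exp_add]; simp
  rw [e]
  push_cast
  rw [Complex.cos, Complex.cos, Complex.sin, Complex.sin]
  linear_combination (R * (1 - q) * (cexp (-t * I) - cexp (t * I) - cexp (-s * I) +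
    cexp (s * I)) / 2 : ℂ) * I_mul_I + R * q * cexp (-s * I) * h1 - R * q * cexp (-t * I) * h2

theorem summable_mc {q : ℝ} (h0 : 0 ≤ q) (h1 : q ≤ 23 / 50) :
    Summable fun n => (mc n : ℝ) * q ^ n := (hasSum_pot h0 h1 0).summable

theorem pot_gam {R q : ℝ} (hR : 0 ≤ R) (h0 : 0 ≤ q) (h1 : q ≤ 23 / 50) (t : ℝ) :
    ∫ s in (0 : ℝ)..2 * π,
      dist (gam (R * (1 + q)) (R * (1 - q)) t) (gam (R * (1 + q)) (R * (1 - q)) s) * ff q s =
        2 * π * (4 * R / π * ∑' n, (mc n : ℝ) * q ^ n) := by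
  simp only [dist_gam_eq hR, mul_assoc R]
  rw [intervalIntegral.integral_const_mul, (hasSum_pot h0 h1 t).tsum_eq]
  field_simp
  ring

theorem series (hb : 0 < b) (hab : b ≤ a) (h : 7 * a ≤ 18 * b) (m : ℝ) :
    IsMagic (ellipse a b) m ↔
      m = 2 * (a + b) / π * ∑' n, (mc n : ℝ) * ((a - b) / (a + b)) ^ n := by
  have ha : 0 < a := lt_of_lt_of_le hb hab
  have h0 : 0 ≤ (a - b) / (a + b) := div_nonneg (by linarith) (by positivity)
  have h1 : (a - b) / (a + b) ≤ 11 / 25 := by rw [div_le_iff₀ (by positivity)]; linarith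
  have h2 := pot_gam (R := (a + b) / 2) (by positivity) h0 (h1.trans (by norm_num))
  rw [show (a + b) / 2 * (1 + (a - b) / (a + b)) = a by field_simp; ring,
    show (a + b) / 2 * (1 - (a - b) / (a + b)) = b by field_simp; ring,
    show 4 * ((a + b) / 2) = 2 * (a + b) by ring] at h2
  rw [← range_gam ha.ne' hb.ne']
  exact magic_iff (gam_lip ha.le hb.le) (gam_diam ha.le hb.le)
    (continuous_ff h0 (h1.trans (by norm_num))) (ff_nonneg h0 h1)
    (integral_ff h0 (h1.trans (by norm_num))) h2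

end Pool.Agent.Lib.MP_efb7ef_gt
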