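import Pool.Agent.Lib.MP_efb7ef_gt.Magic

/-! Quantitative negative type of the plane, and signed invariant densities. -/

namespace Pool.Agent.Lib.MP_efb7ef_gt

open Finset Real MeasureTheory

theorem neg_line {ι : Type} [Fintype ι] (t ω : ι → ℝ) (h0 : ∑ i, ω i = 0) {B τ : ℝ}
    (ht : ∀ i, |t i| ≤ B) (hτ : |τ| ≤ B) :
    0 ≤ -∑ i, ∑ j, ω i * ω j * |t i - t j| ∧
      (∑ i, ω i * max (t i - τ) 0) ^ 2 ≤ (-∑ i, ∑ j, ω i * ω j * |t i - t j|) * B := by
  let v : ℝ → Lp ℝ 2 (volume : Measure ℝ) := fun x =>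
    indicatorConstLp 2 (measurableSet_Ioc (a := -B) (b := x)) measure_Ioc_lt_top.ne (1 : ℝ)
  have hv : ∀ x y, |x| ≤ B → |y| ≤ B → inner ℝ (v x) (v y) = min x y + B := by
    intro x y hx hy
    rw [L2.real_inner_indicatorConstLp_one_indicatorConstLp_one _ _ measure_Ioc_lt_top.ne
      measure_Ioc_lt_top.ne, Set.Ioc_inter_Ioc, max_self,
      Real.volume_real_Ioc_of_le (le_min (abs_le.1 hx).1 (abs_le.1 hy).1), sub_neg_eq_add]
  have hB : 0 ≤ B := (abs_nonneg _).trans hτ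
  have hB' : |B| ≤ B := (abs_of_nonneg hB).le
  have e1 : inner ℝ (∑ i, ω i • v (t i)) (∑ i, ω i • v (t i)) =
      (-∑ i, ∑ j, ω i * ω j * |t i - t j|) / 2 := by
    simp only [sum_inner, inner_sum, real_inner_smul_left, real_inner_smul_right,
      hv _ _ (ht _) (ht _)]
    have : ∀ i j, ω i * (ω j * (min (t j) (t i) + B)) = (ω i * (t i / 2 + B)) * ω j +
        ω i * (ω j * t j / 2) - ω i * ω j * |t i - t j| / 2 := by
      intro i j
      rcases le_total (t i) (t j) with h | h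
      · rw [min_eq_right h, abs_of_nonpos (by linarith)]; ring
      · rw [min_eq_left h, abs_of_nonneg (by linarith)]; ring
    simp only [this, sum_sub_distrib, sum_add_distrib, ← sum_div]
    simp only [← mul_sum, ← sum_mul, h0]
    ring
  have e2 : inner ℝ (∑ i, ω i • v (t i)) (v B - v τ) = ∑ i, ω i * max (t i - τ) 0 := by
    simp only [sum_inner, real_inner_smul_left, inner_sub_right, hv _ _ (ht _) hB',
      hv _ _ (ht _) hτ, ← sum_sub_distrib]
    refine sum_congr rfl fun i _ => ?_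
    rw [min_eq_left (abs_le.1 (ht i)).2]
    rcases le_total (t i) τ with h | h
    · rw [min_eq_left h, max_eq_right (by linarith)]; ring
    · rw [min_eq_right h, max_eq_left (by linarith)]; ring
  have e3 : inner ℝ (v B - v τ) (v B - v τ) = B - τ := by
    simp only [inner_sub_left, inner_sub_right, hv _ _ hB' hB', hv _ _ hτ hτ, hv _ _ hB' hτ,
      hv _ _ hτ hB', min_self, min_eq_left (abs_le.1 hτ).2, min_eq_right (abs_le.1 hτ).2]
    ring
  have a1 := real_inner_self_nonneg (x := ∑ i, ω i • v (t i))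
  have a2 := real_inner_mul_inner_self_le (∑ i, ω i • v (t i)) (v B - v τ)
  rw [e1] at a1
  rw [e1, e2, e3] at a2
  refine ⟨by linarith, ?_⟩
  nlinarith [(abs_le.1 hτ).1]

theorem integral_abs_cos (φ : ℝ) : ∫ θ in (0 : ℝ)..2 * π, |cos (θ - φ)| = 4 := by
  have hp : Function.Periodic (fun θ : ℝ => |cos θ|) (2 * π) := fun θ => by simp
  have h := hp.intervalIntegral_add_eq (0 - φ) (-(π / 2))
  rw [intervalIntegral.integral_comp_sub_right (fun θ => |cos θ|),
    show 2 * π - φ = 0 - φ + 2 * π by ring, h,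
    ← intervalIntegral.integral_add_adjacent_intervals (b := π / 2)
      (by apply Continuous.intervalIntegrable; fun_prop)
      (by apply Continuous.intervalIntegrable; fun_prop)]
  have h1 : ∫ θ in -(π / 2)..π / 2, |cos θ| = ∫ θ in -(π / 2)..π / 2, cos θ :=
    intervalIntegral.integral_congr fun θ hθ => by
      rw [Set.uIcc_of_le (by linarith [pi_pos])] at hθ
      exact abs_of_nonneg (cos_nonneg_of_mem_Icc hθ)
  have h2 : ∫ θ in π / 2..-(π / 2) + 2 * π, |cos θ| = ∫ θ in π / 2..-(π / 2) + 2 * π, -cos θ :=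
    intervalIntegral.integral_congr fun θ hθ => by
      rw [Set.uIcc_of_le (by linarith [pi_pos])] at hθ
      exact abs_of_nonpos (cos_nonpos_of_pi_div_two_le_of_le hθ.1 (by linarith [hθ.2]))
  rw [h1, h2, intervalIntegral.integral_neg, integral_cos, integral_cos]
  simp
  norm_num

/-- The coordinate in direction `θ`. -/
noncomputable def pr (θ : ℝ) (x : EuclideanSpace ℝ (Fin 2)) : ℝ := x 0 * cos θ + x 1 * sin θ

theorem polar (x y : EuclideanSpace ℝ (Fin 2)) :
    ∃ φ, ∀ θ, pr θ x - pr θ y = dist x y * cos (θ - φ) := by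
  set z : ℂ := ((x 0 - y 0 : ℝ) : ℂ) + ((x 1 - y 1 : ℝ) : ℂ) * Complex.I with hz
  have hn : ‖z‖ = dist x y := by
    rw [hz, Complex.norm_add_mul_I, EuclideanSpace.dist_eq]
    simp [Real.dist_eq]
  have h1 := Complex.norm_mul_cos_arg z
  have h2 := Complex.norm_mul_sin_arg z
  have e1 : z.re = x 0 - y 0 := by simp [hz]
  have e2 : z.im = x 1 - y 1 := by simp [hz]
  rw [hn, e1] at h1
  rw [hn, e2] at h2
  refine ⟨z.arg, fun θ => ?_⟩
  rw [cos_sub, pr, pr]
  linear_combination (-cos θ) * h1 - sin θ * h2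

theorem pr_lip (θ : ℝ) (x y : EuclideanSpace ℝ (Fin 2)) : |pr θ x - pr θ y| ≤ dist x y := by
  obtain ⟨φ, h⟩ := polar x y
  rw [h, abs_mul, abs_of_nonneg dist_nonneg]
  exact mul_le_of_le_one_right dist_nonneg (abs_cos_le_one _)

theorem integral_pr (x y : EuclideanSpace ℝ (Fin 2)) :
    ∫ θ in (0 : ℝ)..2 * π, |pr θ x - pr θ y| = 4 * dist x y := by
  obtain ⟨φ, h⟩ := polar x y
  simp only [h, abs_mul, abs_of_nonneg dist_nonneg]
  rw [intervalIntegral.integral_const_mul, integral_abs_cos, mul_comm]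

theorem neg_plane {ι : Type} [Fintype ι] (p : ι → EuclideanSpace ℝ (Fin 2)) (ω : ι → ℝ)
    (h0 : ∑ i, ω i = 0) {B τ c u w : ℝ} (hB : 0 < B) (hp : ∀ θ i, |pr θ (p i)| ≤ B) (hτ : |τ| ≤ B)
    (hc : 0 ≤ c) (hu : 0 ≤ u) (huw : u ≤ w) (hw : w ≤ 2 * π)
    (h : ∀ θ ∈ Set.Icc u w, c ≤ ∑ i, ω i * max (pr θ (p i) - τ) 0) :
    (w - u) * (c ^ 2 / B) ≤ 4 * -∑ i, ∑ j, ω i * ω j * dist (p i) (p j) := by
  have hcont : Continuous fun θ => -∑ i, ∑ j, ω i * ω j * |pr θ (p i) - pr θ (p j)| := by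
    unfold pr; fun_prop
  have e : ∫ θ in (0 : ℝ)..2 * π, -∑ i, ∑ j, ω i * ω j * |pr θ (p i) - pr θ (p j)| =
      4 * -∑ i, ∑ j, ω i * ω j * dist (p i) (p j) := by
    rw [intervalIntegral.integral_neg, intervalIntegral.integral_finsetSum fun i _ => by
      apply Continuous.intervalIntegrable; unfold pr; fun_prop, mul_neg, mul_sum]
    congr 1
    refine sum_congr rfl fun i _ => ?_
    rw [intervalIntegral.integral_finsetSum fun i _ => by
      apply Continuous.intervalIntegrable; unfold pr; fun_prop, mul_sum]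
    refine sum_congr rfl fun j _ => ?_
    rw [intervalIntegral.integral_const_mul, integral_pr]; ring
  rw [← e]
  refine le_trans ?_ (intervalIntegral.integral_mono_interval hu huw hw
    (ae_of_all _ fun θ => (neg_line _ ω h0 (hp θ) hτ).1) (hcont.intervalIntegrable _ _))
  have := intervalIntegral.integral_mono_on (μ := volume) (f := fun _ => c ^ 2 / B) huw
    intervalIntegrable_const (hcont.intervalIntegrable _ _) fun θ hθ => by
      rw [div_le_iff₀ hB]
      exact (pow_le_pow_left₀ hc (h θ hθ) 2).trans (neg_line _ ω h0 (hp θ) hτ).2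
  rwa [intervalIntegral.integral_const, smul_eq_mul] at this

theorem IsMagic.greedy {Γ : Set (EuclideanSpace ℝ (Fin 2))} {m : ℝ} (h : IsMagic Γ m)
    (hne : Γ.Nonempty) (n : ℕ) : ∃ y : Fin (n + 1) → EuclideanSpace ℝ (Fin 2), (∀ i, y i ∈ Γ) ∧
      ∑ i, ∑ j, dist (y i) (y j) = (n + 1) * n * m := by
  induction n with
  | zero =>
    obtain ⟨x, hx⟩ := hne
    exact ⟨fun _ => x, fun _ => hx, by simp⟩
  | succ n ih =>
    obtain ⟨y, hy, e⟩ := ih
    obtain ⟨x, hx, e'⟩ := h (n + 1) n.succ_pos y hy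
    rw [div_eq_iff (by positivity)] at e'
    refine ⟨Fin.cons x y, Fin.cases hx hy, ?_⟩
    rw [Fin.sum_univ_succ]
    simp only [Fin.sum_univ_succ (n := n + 1), Fin.cons_zero, Fin.cons_succ, dist_self,
      sum_add_distrib, e, e', dist_comm x]
    push_cast
    ring

variable {γ : ℝ → EuclideanSpace ℝ (Fin 2)} {f : ℝ → ℝ} {L : ℝ}

theorem magic_lt {M m B τ c u w : ℝ} (hL : ∀ s t, dist (γ s) (γ t) ≤ L * |s - t|)
    (hf : Continuous f) (h1 : ∫ s in (0 : ℝ)..2 * π, f s = 2 * π)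
    (hM : ∀ t, ∫ s in (0 : ℝ)..2 * π, dist (γ t) (γ s) * f s = 2 * π * M)
    (hB : 0 < B) (hp : ∀ θ s, |pr θ (γ s)| ≤ B) (hτ : |τ| ≤ B) (hc : 0 < c) (hu : 0 ≤ u)
    (huw : u < w) (hw : w ≤ 2 * π)
    (h : ∀ θ ∈ Set.Icc u w,
      (∫ s in (0 : ℝ)..2 * π, max (pr θ (γ s) - τ) 0 * f s) / (2 * π) ≤ -(2 * c))
    (hm : IsMagic (Set.range γ) m) : m < M := by
  obtain ⟨C, hC0, hC⟩ := riemann hL hf h1
  have hδ : 0 < (w - u) * (c ^ 2 / B) := by have := sub_pos.2 huw; positivity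
  set δ := (w - u) * (c ^ 2 / B) with hδ'
  obtain ⟨N, z, ω, w1, -, wC, hw'⟩ := hC (min c (δ / (16 * (2 + C)))) (by positivity)
  obtain ⟨n, hn⟩ := exists_nat_gt (16 * |m| / δ)
  obtain ⟨y, hy, e⟩ := hm.greedy (Set.range_nonempty γ) n
  choose t ht using hy
  have hn0 : (0 : ℝ) < n + 1 := by positivity
  have w1' : ∑ j : Fin N, ω j = 1 := by rw [Fin.sum_univ_eq_sum_range, w1]
  have key := neg_plane (ι := Fin (n + 1) ⊕ Fin N) (Sum.elim y fun j => γ (z j))
    (Sum.elim (fun _ => 1 / (n + 1 : ℝ)) fun j => -ω j) (B := B) (τ := τ) (c := c) (u := u)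
    (w := w) (by simp [w1']; field_simp; ring) hB
    (fun θ i => by rcases i with i | i; exacts [by rw [Sum.elim_inl, ← ht]; exact hp θ _, hp θ _]) hτ hc.le hu huw.le hw
    fun θ hθ => by
      have a1 := (abs_le.1 (hw' (fun x => max (pr θ x - τ) 0) fun x y =>
        (abs_max_sub_max_le_abs _ _ _).trans (by simpa using pr_lip θ x y))).2
      have a2 := h θ hθ
      have a3 : 0 ≤ ∑ i : Fin (n + 1), 1 / (n + 1 : ℝ) * max (pr θ (y i) - τ) 0 :=
        sum_nonneg fun _ _ => mul_nonneg (by positivity) (le_max_right _ _)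
      rw [← Fin.sum_univ_eq_sum_range (fun j => ω j * max (pr θ (γ (z j)) - τ) 0)] at a1
      simp only [Fintype.sum_sum_type, Sum.elim_inl, Sum.elim_inr, neg_mul, sum_neg_distrib]
      linarith [min_le_left c (δ / (16 * (2 + C)))]
  set ε := δ / (16 * (2 + C)) with hε
  have hU : ∀ s, |∑ j : Fin N, ω j * dist (γ s) (γ (z j)) - M| ≤ ε := fun s => by
    have a1 := hw' (fun x => dist (γ s) x) fun x y => by
      rw [dist_comm _ x, dist_comm _ y]; exact abs_dist_sub_le _ _ _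
    rw [hM, mul_div_cancel_left₀ _ (by positivity),
      ← Fin.sum_univ_eq_sum_range (fun j => ω j * dist (γ s) (γ (z j)))] at a1
    exact a1.trans (min_le_right _ _)
  have b1 : ∑ i, ∑ j : Fin N, ω j * dist (y i) (γ (z j)) ≤ (n + 1) * (M + ε) := by
    refine (sum_le_card_nsmul _ _ (M + ε) fun i _ => ?_).trans (by simp [add_mul, mul_add])
    rw [← ht]
    linarith [(abs_le.1 (hU (t i))).2]
  have b2 : M - C * ε ≤ ∑ i : Fin N, ∑ j : Fin N, ω i * ω j * dist (γ (z i)) (γ (z j)) := by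
    have : ∑ i : Fin N, ∑ j : Fin N, ω i * ω j * dist (γ (z i)) (γ (z j)) - M =
        ∑ i : Fin N, ω i * (∑ j : Fin N, ω j * dist (γ (z i)) (γ (z j)) - M) := by
      simp only [mul_sub, sum_sub_distrib, ← sum_mul, w1', one_mul, mul_sum, mul_assoc]
    have a2 : |∑ i : Fin N, ω i * (∑ j : Fin N, ω j * dist (γ (z i)) (γ (z j)) - M)| ≤ C * ε := by
      refine (abs_sum_le_sum_abs _ _).trans (le_trans (sum_le_sum fun i _ => ?_ :
        _ ≤ ∑ i : Fin N, |ω i| * ε) ?_)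
      · rw [abs_mul]; exact mul_le_mul_of_nonneg_left (hU _) (abs_nonneg _)
      · rw [← sum_mul, Fin.sum_univ_eq_sum_range (fun j => |ω j|)]
        exact mul_le_mul_of_nonneg_right wC (by positivity)
    linarith [(abs_le.1 a2).1]
  have b3 : ∑ i, ∑ j, Sum.elim (fun _ => 1 / (n + 1 : ℝ)) (fun j : Fin N => -ω j) i *
      Sum.elim (fun _ => 1 / (n + 1 : ℝ)) (fun j : Fin N => -ω j) j *
      dist (Sum.elim y (fun j : Fin N => γ (z j)) i) (Sum.elim y (fun j : Fin N => γ (z j)) j) =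
      (1 / (n + 1)) ^ 2 * ∑ i, ∑ j, dist (y i) (y j) -
        2 * (1 / (n + 1)) * ∑ i, ∑ j : Fin N, ω j * dist (y i) (γ (z j)) +
        ∑ i : Fin N, ∑ j : Fin N, ω i * ω j * dist (γ (z i)) (γ (z j)) := by
    simp only [Fintype.sum_sum_type, Sum.elim_inl, Sum.elim_inr, sum_add_distrib, neg_mul_neg]
    rw [sum_comm (s := (univ : Finset (Fin N))) (t := (univ : Finset (Fin (n + 1))))]
    simp only [dist_comm (γ _) (y _), mul_neg, neg_mul, sum_neg_distrib, mul_assoc,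
      mul_left_comm (ω _) (1 / (n + 1 : ℝ)), ← mul_sum]
    ring
  rw [b3, e, ← hδ'] at key
  have b4 : 2 * (1 / (n + 1 : ℝ)) * ∑ i, ∑ j : Fin N, ω j * dist (y i) (γ (z j)) ≤ 2 * (M + ε) :=
    (mul_le_mul_of_nonneg_left b1 (by positivity)).trans_eq (by field_simp)
  have b5 : (1 / (n + 1 : ℝ)) ^ 2 * ((n + 1) * n * m) = m - m / (n + 1) := by field_simp; ring
  have b6 : m / (n + 1) ≤ δ / 16 := by
    rw [div_lt_iff₀ hδ] at hn
    rw [div_le_iff₀ hn0]
    nlinarith [le_abs_self m]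
  have b7 : (2 + C) * ε = δ / 16 := by rw [hε]; field_simp
  nlinarith

end Pool.Agent.Lib.MP_efb7ef_gt
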