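import Pool.Agent.Lib.MP_efb7ef_gt.Ell
import Pool.Agent.Lib.MP_efb7ef_gt.Neg

/-! The series is too large at the axis ratio 11/29, so the magic number is not analytic. -/

namespace Pool.Agent.Lib.MP_efb7ef_gt

open Finset Real Topology Filter

theorem magic_lt_gam {a b M m : ℝ} {f : ℝ → ℝ} (ha : 0 < a) (hb : 0 < b) (hf : Continuous f)
    (h1 : ∫ s in (0 : ℝ)..2 * π, f s = 2 * π)
    (hM : ∀ t, ∫ s in (0 : ℝ)..2 * π, dist (gam a b t) (gam a b s) * f s = 2 * π * M)
    (hneg : f (π / 2) < 0) (hm : IsMagic (ellipse a b) m) : m < M := by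
  obtain ⟨η, hη, hfη⟩ := Metric.eventually_nhds_iff.1
    (hf.continuousAt.eventually_lt continuousAt_const hneg)
  set δ := min η 1 with hδ
  have d0 : 0 < δ := by positivity
  have d1 : δ ≤ 1 := min_le_right _ _
  have hπ := pi_gt_three
  have hcos : 0 ≤ cos δ := cos_nonneg_of_mem_Icc ⟨by linarith, by linarith⟩
  set Φ : ℝ → ℝ := fun θ => ∫ s in (0 : ℝ)..2 * π, max (pr θ (gam a b s) - b * cos δ) 0 * f s
    with hΦ
  have hpr : ∀ θ s, pr θ (gam a b s) = a * cos s * cos θ + b * sin s * sin θ := fun θ s => by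
    simp [pr, gam]
  have hΦc : Continuous Φ := by
    refine intervalIntegral.continuous_parametric_intervalIntegral_of_continuous' ?_ _ _
    simp only [Function.uncurry_def, hpr]
    fun_prop
  have hΦ0 : Φ (π / 2) < 0 := by
    have := intervalIntegral.integral_lt_integral_of_continuousOn_of_le_of_exists_lt
      (f := fun s => max (pr (π / 2) (gam a b s) - b * cos δ) 0 * f s) (g := fun _ => 0)
      (a := 0) (b := 2 * π) (by positivity) (by simp only [hpr]; fun_prop) continuousOn_const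
      (fun s hs => ?_) ⟨π / 2, ⟨by positivity, by linarith⟩, ?_⟩
    · simpa using this
    · simp only [hpr, cos_pi_div_two, sin_pi_div_two, mul_zero, mul_one, zero_add]
      by_cases h : |s - π / 2| < δ
      · exact mul_nonpos_of_nonneg_of_nonpos (le_max_right _ _)
          (hfη (h.trans_le (min_le_left _ _))).le
      have : sin s ≤ cos δ := by
        rw [← cos_sub_pi_div_two, ← cos_abs]
        by_cases h' : |s - π / 2| ≤ π
        · exact cos_le_cos_of_nonneg_of_le_pi d0.le h' (not_lt.1 h)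
        · refine le_trans (cos_nonpos_of_pi_div_two_le_of_le (by linarith) ?_) hcos
          exact abs_le.2 ⟨by linarith [hs.1], by linarith [hs.2]⟩
      rw [max_eq_right (by nlinarith), zero_mul]
    · simp only [hpr, cos_pi_div_two, sin_pi_div_two, mul_zero, mul_one, zero_add]
      refine mul_neg_of_pos_of_neg (lt_max_of_lt_left ?_) hneg
      have : cos δ < 1 := by
        rw [← cos_zero]; exact cos_lt_cos_of_nonneg_of_le_pi le_rfl (by linarith) d0
      nlinarith
  obtain ⟨κ, hκ, hΦκ⟩ := Metric.eventually_nhds_iff.1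
    (hΦc.continuousAt.eventually_lt continuousAt_const (show Φ (π / 2) < Φ (π / 2) / 2 by linarith))
  have k0 : 0 < min (κ / 2) 1 := by positivity
  rw [← range_gam ha.ne' hb.ne'] at hm
  refine magic_lt (B := a + b) (τ := b * cos δ) (c := -Φ (π / 2) / (8 * π)) (u := π / 2)
    (w := π / 2 + min (κ / 2) 1) (gam_lip ha.le hb.le) hf h1 hM (by positivity) (fun θ s => ?_) ?_
    (div_pos (by linarith) (by positivity)) (by positivity) (by linarith)
    (by linarith [min_le_right (κ / 2) 1]) (fun θ hθ => ?_) hm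
  · rw [hpr]
    refine (abs_add_le _ _).trans (add_le_add ?_ ?_)
    · rw [mul_assoc, abs_mul, abs_of_pos ha, abs_mul]
      exact mul_le_of_le_one_right ha.le (mul_le_one₀ (abs_cos_le_one _) (abs_nonneg _)
        (abs_cos_le_one _))
    · rw [mul_assoc, abs_mul, abs_of_pos hb, abs_mul]
      exact mul_le_of_le_one_right hb.le (mul_le_one₀ (abs_sin_le_one _) (abs_nonneg _)
        (abs_sin_le_one _))
  · rw [abs_of_nonneg (by positivity)]
    nlinarith [cos_le_one δ]
  · have := hΦκ (y := θ) (by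
      rw [Real.dist_eq, abs_of_nonneg (by linarith [hθ.1])]
      linarith [hθ.2, min_le_left (κ / 2) 1])
    change Φ θ / (2 * π) ≤ _
    rw [div_le_iff₀ (by positivity)]
    refine this.le.trans (le_of_eq ?_)
    field_simp
    ring

theorem magic_lt_series {m : ℝ} (hm : IsMagic (ellipse 1 (11 / 29)) m) :
    m < 2 * (1 + 11 / 29) / π * ∑' n, (mc n : ℝ) * ((1 - 11 / 29) / (1 + 11 / 29)) ^ n := by
  have h2 := pot_gam (R := 20 / 29) (q := 9 / 20) (by norm_num) (by norm_num) (by norm_num)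
  rw [show (20 / 29 : ℝ) * (1 + 9 / 20) = 1 by norm_num,
    show (20 / 29 : ℝ) * (1 - 9 / 20) = 11 / 29 by norm_num] at h2
  rw [show (2 : ℝ) * (1 + 11 / 29) = 4 * (20 / 29) by norm_num,
    show ((1 - 11 / 29) / (1 + 11 / 29) : ℝ) = 9 / 20 by norm_num]
  exact magic_lt_gam one_pos (by norm_num) (continuous_ff (by norm_num) (by norm_num))
    (integral_ff (by norm_num) (by norm_num)) h2 ff_neg hm

theorem analyticAt_series {q : ℝ} (h : |q| < 23 / 50) :
    AnalyticAt ℝ (fun x : ℝ => ∑' n, (mc n : ℝ) * x ^ n) q := by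
  set p := FormalMultilinearSeries.ofScalars ℝ fun n => (mc n : ℝ) with hp
  have hr : ((23 / 50 : NNReal) : ENNReal) ≤ p.radius := by
    refine p.le_radius_of_summable_norm ?_
    refine (summable_mc (q := 23 / 50) (by norm_num) le_rfl).abs.congr fun n => ?_
    rw [hp, FormalMultilinearSeries.ofScalars_norm, Real.norm_eq_abs, abs_mul,
      abs_of_pos (show (0 : ℝ) < (23 / 50) ^ n by positivity)]
    simp
  have h1 := (p.hasFPowerSeriesOnBall (lt_of_lt_of_le (by norm_num) hr)).analyticAt_of_mem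
    (y := q) (Metric.eball_subset_eball hr (by
      rw [Metric.eball_coe, mem_ball_zero_iff]; simpa using h))
  have : p.sum = fun x : ℝ => ∑' n, (mc n : ℝ) * x ^ n :=
    funext fun x => FormalMultilinearSeries.ofScalars_sum_eq _ x
  rwa [this] at h1

theorem not_analytic (M : ℝ → ℝ) (hM : ∀ ρ ∈ Set.Ioo (0 : ℝ) 1, IsMagic (ellipse 1 ρ) (M ρ)) :
    ∃ ρ ∈ Set.Icc (11 / 29 : ℝ) (7 / 18), ¬ AnalyticAt ℝ M ρ := by
  by_contra hc
  push Not at hc
  have hG : AnalyticOnNhd ℝ (fun ρ : ℝ => 2 * (1 + ρ) / π *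
      ∑' n, (mc n : ℝ) * ((1 - ρ) / (1 + ρ)) ^ n) (Set.Icc (11 / 29) (7 / 18)) := by
    intro ρ hρ
    have h0 : 0 < 1 + ρ := by linarith [hρ.1]
    have h1 : AnalyticAt ℝ (fun ρ : ℝ => (1 - ρ) / (1 + ρ)) ρ := by fun_prop (disch := positivity)
    have h2 : |(1 - ρ) / (1 + ρ)| < 23 / 50 := by
      rw [abs_of_nonneg (div_nonneg (by linarith [hρ.2]) h0.le), div_lt_iff₀ h0]
      linarith [hρ.1]
    exact AnalyticAt.mul (by fun_prop)
      ((analyticAt_series h2).comp (f := fun ρ : ℝ => (1 - ρ) / (1 + ρ)) h1)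
  have hev : ∀ᶠ ρ in 𝓝[>] (7 / 18 : ℝ), M ρ = 2 * (1 + ρ) / π *
      ∑' n, (mc n : ℝ) * ((1 - ρ) / (1 + ρ)) ^ n := by
    filter_upwards [Ioo_mem_nhdsGT (show (7 / 18 : ℝ) < 1 by norm_num)] with ρ hρ
    exact (series (by linarith [hρ.1]) hρ.2.le (by linarith [hρ.1]) _).1
      (hM ρ ⟨by linarith [hρ.1], hρ.2⟩)
  have := AnalyticOnNhd.eqOn_of_preconnected_of_frequently_eq (fun ρ hρ => hc ρ hρ) hG
    isPreconnected_Icc (z₀ := 7 / 18) ⟨by norm_num, le_rfl⟩
    (hev.frequently.filter_mono (nhdsWithin_mono _ fun x hx => ne_of_gt hx))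
    (show (11 / 29 : ℝ) ∈ Set.Icc (11 / 29 : ℝ) (7 / 18) from ⟨le_rfl, by norm_num⟩)
  exact (magic_lt_series (hM _ ⟨by norm_num, by norm_num⟩)).ne this

end Pool.Agent.Lib.MP_efb7ef_gt
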