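import Pool.Agent.Lib.MP_efb7ef_gt.Bound

/-! The density `ff q` has constant distance potential on the ellipse. -/

namespace Pool.Agent.Lib.MP_efb7ef_gt

open Finset Complex Real

/-- The part of order `n` of the density. -/
noncomputable def gn (n : ℕ) (s : ℝ) : ℝ := ∑ r ∈ Icc (-(n : ℤ)) n, (cf n r : ℝ) * Real.cos (2 * r * s)

/-- The invariant density. -/
noncomputable def ff (q s : ℝ) : ℝ := ∑' n, q ^ n * gn n s

theorem abs_gn_le (n : ℕ) (s : ℝ) : |gn n s| ≤ xn n := by
  rw [gn, xn]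
  push_cast
  refine (abs_sum_le_sum_abs _ _).trans (sum_le_sum fun r _ => ?_)
  rw [abs_mul]
  exact mul_le_of_le_one_right (abs_nonneg _) (abs_cos_le_one _)

theorem continuous_gn (n : ℕ) : Continuous (gn n) := by unfold gn; fun_prop

theorem tail_real (M : ℕ) :
    ∑ n ∈ range M, (23 / 50 : ℝ) ^ (n + 41) * xn (n + 41) ≤ 1 / 1000 := by
  have := (Rat.cast_le (K := ℝ)).2 (tail_x M)
  push_cast at this
  exact this

theorem xn_nonneg' (n : ℕ) : (0 : ℝ) ≤ xn n := by exact_mod_cast xn_nonneg n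

theorem summable_Q : Summable fun n => (23 / 50 : ℝ) ^ n * xn n := by
  rw [← summable_nat_add_iff 41]
  exact summable_of_sum_range_le (fun n => mul_nonneg (by positivity) (xn_nonneg' _)) tail_real

variable {q : ℝ}

theorem norm_term_le (h0 : 0 ≤ q) (h1 : q ≤ 23 / 50) (n : ℕ) (s : ℝ) :
    ‖q ^ n * gn n s‖ ≤ (23 / 50 : ℝ) ^ n * xn n := by
  rw [norm_mul, norm_pow, Real.norm_of_nonneg h0]
  exact mul_le_mul (pow_le_pow_left₀ h0 h1 n) (abs_gn_le n s) (norm_nonneg _) (by positivity)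

theorem summable_norm_ff (h0 : 0 ≤ q) (h1 : q ≤ 23 / 50) (s : ℝ) :
    Summable fun n => ‖q ^ n * gn n s‖ :=
  Summable.of_nonneg_of_le (fun _ => norm_nonneg _) (fun n => norm_term_le h0 h1 n s) summable_Q

theorem continuous_ff (h0 : 0 ≤ q) (h1 : q ≤ 23 / 50) : Continuous (ff q) :=
  continuous_tsum (fun n => continuous_const.mul (continuous_gn n)) summable_Q
    (norm_term_le h0 h1)

theorem ff_tail (h0 : 0 ≤ q) (h1 : q ≤ 23 / 50) (s : ℝ) :
    |ff q s - ∑ n ∈ range 41, q ^ n * gn n s| ≤ (q * (50 / 23)) ^ 41 / 1000 := by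
  have hs := summable_norm_ff h0 h1 s
  rw [ff, ← hs.of_norm.sum_add_tsum_nat_add 41, add_sub_cancel_left]
  have hs' := (summable_nat_add_iff 41).2 hs
  refine (norm_tsum_le_tsum_norm hs').trans (hs'.tsum_le_of_sum_range_le fun M => ?_)
  have : ∑ n ∈ range M, ‖q ^ (n + 41) * gn (n + 41) s‖ ≤
      (q * (50 / 23)) ^ 41 * ∑ n ∈ range M, (23 / 50 : ℝ) ^ (n + 41) * xn (n + 41) := by
    rw [mul_sum]
    refine sum_le_sum fun n _ => ?_
    rw [norm_mul, norm_pow, Real.norm_of_nonneg h0, ← mul_assoc]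
    refine mul_le_mul ?_ (abs_gn_le _ s) (norm_nonneg _) (by positivity)
    have e : (q * (50 / 23)) ^ 41 * (23 / 50 : ℝ) ^ (n + 41) = (23 / 50) ^ n * q ^ 41 := by
      rw [pow_add, mul_pow]; norm_num; ring
    rw [e, pow_add]
    exact mul_le_mul_of_nonneg_right (pow_le_pow_left₀ h0 h1 n) (by positivity)
  exact this.trans ((mul_le_mul_of_nonneg_left (tail_real M) (by positivity)).trans_eq (by ring))

theorem gn_complex (n : ℕ) (s : ℝ) :
    (gn n s : ℂ) = ∑ r ∈ Icc (-(n : ℤ)) n, (cf n r : ℂ) * cexp (2 * r * s * I) := by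
  have h : ∑ r ∈ Icc (-(n : ℤ)) n, (cf n r : ℂ) * cexp (2 * r * s * I) =
      ∑ r ∈ Icc (-(n : ℤ)) n, (cf n r : ℂ) * cexp (-(2 * r * s) * I) := by
    refine sum_bij (fun r _ => -r) (fun r hr => ?_) (fun _ _ _ _ e => by omega)
      (fun r hr => ⟨-r, ?_, by simp⟩) fun r _ => by simp [cf_neg]
    · rw [mem_Icc] at hr ⊢; omega
    · rw [mem_Icc] at hr ⊢; omega
  refine mul_left_cancel₀ two_ne_zero ?_
  rw [two_mul (∑ r ∈ _, _)]
  nth_rewrite 2 [h]
  rw [← sum_add_distrib, gn]
  push_cast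
  rw [mul_sum]
  refine sum_congr rfl fun r _ => ?_
  rw [← mul_add, ← Complex.two_cos]
  ring

theorem summable_bc {z : ℂ} (hz : ‖z‖ < 1) : Summable fun i => ‖(bc i : ℂ) * z ^ i‖ := by
  refine Summable.of_nonneg_of_le (fun _ => norm_nonneg _) (fun i => ?_)
    (summable_geometric_of_lt_one (norm_nonneg z) hz)
  rw [norm_mul, norm_pow]
  refine mul_le_of_le_one_left (by positivity) ?_
  rw [Complex.norm_ratCast]
  exact_mod_cast abs_bc_le i

theorem sq_bc {z : ℂ} (hz : ‖z‖ < 1) : (∑' i, (bc i : ℂ) * z ^ i) ^ 2 = 1 - z := by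
  rw [sq, tsum_mul_tsum_eq_tsum_sum_antidiagonal_of_summable_norm (summable_bc hz)
    (summable_bc hz)]
  have h : ∀ n, ∑ x ∈ antidiagonal n, (bc x.1 : ℂ) * z ^ x.1 * ((bc x.2 : ℂ) * z ^ x.2) =
      tb n * z ^ n := by
    intro n
    rw [tb]
    push_cast
    rw [sum_mul]
    refine sum_congr rfl fun x hx => ?_
    rw [← mem_antidiagonal.1 hx]; ring
  simp only [h]
  rw [tsum_eq_sum (s := range 2)]
  · simp [sum_range_succ, tb_zero, tb_one]; ring
  · intro n hn
    obtain ⟨m, rfl⟩ : ∃ m, n = m + 2 := ⟨n - 2, by rw [mem_range] at hn; omega⟩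
    simp [tb_two]

/-- The part of order `k` of the second factor of the kernel. -/
noncomputable def bn (k : ℕ) (v : ℝ) : ℂ :=
  ∑ i ∈ range (k + 1), (bc i : ℂ) * bc (k - i) * cexp (-((k - 2 * i : ℤ) * v * I))

theorem norm_bn_le (k : ℕ) (v : ℝ) : ‖bn k v‖ ≤ 1 := by
  refine (norm_sum_le _ _).trans (le_trans (le_of_eq ?_) (by exact_mod_cast sb_le_one k :
    ((sb k : ℚ) : ℝ) ≤ 1))
  rw [sb]
  push_cast
  refine sum_congr rfl fun i _ => ?_
  have : -(((k : ℂ) - 2 * i) * v * I) = ((-((k - 2 * i) * v) : ℝ) : ℂ) * I := by push_cast; ring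
  rw [norm_mul, this, norm_exp_ofReal_mul_I, mul_one, norm_mul, abs_mul, Complex.norm_ratCast,
    Complex.norm_ratCast]

theorem tsum_bn (h0 : 0 ≤ q) (h1 : q < 1) (v : ℝ) :
    ∑' k, (q : ℂ) ^ k * bn k v = (‖1 - q * cexp (v * I)‖ : ℝ) := by
  set z : ℂ := q * cexp (v * I) with hz
  have hn : ‖z‖ < 1 := by
    rw [hz, norm_mul, norm_exp_ofReal_mul_I, mul_one, Complex.norm_real, Real.norm_of_nonneg h0]
    exact h1
  have hn' : ‖(starRingEnd ℂ) z‖ < 1 := by rwa [RCLike.norm_conj]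
  have h := tsum_mul_tsum_eq_tsum_sum_range_of_summable_norm (summable_bc hn) (summable_bc hn')
  have h2 : ∑' i, (bc i : ℂ) * (starRingEnd ℂ) z ^ i =
      (starRingEnd ℂ) (∑' i, (bc i : ℂ) * z ^ i) := by
    rw [conj_tsum]; simp
  rw [h2, mul_conj, Complex.normSq_eq_norm_sq, ← norm_pow, sq_bc hn] at h
  rw [h]
  refine tsum_congr fun k => ?_
  rw [bn, mul_sum]
  refine sum_congr rfl fun i hi => ?_
  obtain ⟨j, rfl⟩ : ∃ j, k = i + j := ⟨k - i, by have := mem_range.1 hi; omega⟩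
  have e : (starRingEnd ℂ) z = q * cexp (-(v * I)) := by
    rw [hz, map_mul, conj_ofReal, ← exp_conj]; simp
  rw [e, hz, Nat.add_sub_cancel_left, mul_pow, mul_pow, ← Complex.exp_nat_mul,
    ← Complex.exp_nat_mul]
  have : cexp (-((((i + j : ℕ) : ℤ) - 2 * i : ℤ) * v * I)) =
      cexp (i * (v * I)) * cexp (j * -(v * I)) := by
    rw [← Complex.exp_add]; congr 1; push_cast; ring
  rw [this]; ring

theorem integral_chord0 (m : ℤ) :
    ∫ u in (0 : ℝ)..2 * π, (‖cexp (I * u) - 1‖ : ℂ) * cexp (m * u * I) = 8 * al m := by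
  have h1 : ∫ u in (0 : ℝ)..2 * π, (‖cexp (I * u) - 1‖ : ℂ) * cexp (m * u * I) =
      ∫ u in (0 : ℝ)..2 * π,
        (I * cexp ((m - 1 / 2) * I * u) - I * cexp ((m + 1 / 2) * I * u)) := by
    refine intervalIntegral.integral_congr fun u hu => ?_
    rw [Set.uIcc_of_le (by positivity)] at hu
    have hs : 0 ≤ Real.sin (u / 2) :=
      Real.sin_nonneg_of_nonneg_of_le_pi (by linarith [hu.1]) (by linarith [hu.2])
    rw [norm_exp_I_mul_ofReal_sub_one, Real.norm_of_nonneg (by positivity)]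
    push_cast
    rw [Complex.two_sin]
    have e1 : cexp ((m - 1 / 2) * I * u) = cexp (-(u / 2) * I) * cexp (m * u * I) := by
      rw [← Complex.exp_add]; congr 1; ring
    have e2 : cexp ((m + 1 / 2) * I * u) = cexp (u / 2 * I) * cexp (m * u * I) := by
      rw [← Complex.exp_add]; congr 1; ring
    rw [e1, e2]; ring
  have hd := den_ne m
  have hd' : (1 - 4 * (m : ℂ) ^ 2) ≠ 0 := by exact_mod_cast hd
  have n1 : (m : ℂ) - 1 / 2 ≠ 0 := fun e => hd' (by linear_combination -4 * (m + 1 / 2) * e)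
  have n2 : (m : ℂ) + 1 / 2 ≠ 0 := fun e => hd' (by linear_combination -4 * (m - 1 / 2) * e)
  rw [h1, intervalIntegral.integral_sub (by apply Continuous.intervalIntegrable; fun_prop)
    (by apply Continuous.intervalIntegrable; fun_prop), intervalIntegral.integral_const_mul,
    intervalIntegral.integral_const_mul, integral_exp_mul_complex (mul_ne_zero n1 I_ne_zero),
    integral_exp_mul_complex (mul_ne_zero n2 I_ne_zero)]
  have e1 : cexp ((m - 1 / 2) * I * ((2 * π : ℝ) : ℂ)) = -1 := by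
    rw [show (m - 1 / 2 : ℂ) * I * ((2 * π : ℝ) : ℂ) = m * (2 * π * I) - π * I by push_cast; ring,
      Complex.exp_sub, exp_int_mul_two_pi_mul_I, exp_pi_mul_I]; norm_num
  have e2 : cexp ((m + 1 / 2) * I * ((2 * π : ℝ) : ℂ)) = -1 := by
    rw [show (m + 1 / 2 : ℂ) * I * ((2 * π : ℝ) : ℂ) = m * (2 * π * I) + π * I by push_cast; ring,
      Complex.exp_add, exp_int_mul_two_pi_mul_I, exp_pi_mul_I]; norm_num
  rw [e1, e2, al]
  simp only [ofReal_zero, mul_zero, Complex.exp_zero]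
  push_cast
  rw [show (1 - 4 * (m : ℂ) ^ 2) = -4 * (m - 1 / 2) * (m + 1 / 2) by ring]
  have hxy : (m : ℂ) + 1 / 2 - (m - 1 / 2) = 1 := by ring
  generalize (m : ℂ) - 1 / 2 = x at *
  generalize (m : ℂ) + 1 / 2 = y at *
  field_simp
  linear_combination (-8) * hxy

theorem integral_chord (m : ℤ) (t : ℝ) :
    ∫ s in (0 : ℝ)..2 * π, (‖cexp (t * I) - cexp (s * I)‖ : ℂ) * cexp (m * s * I) =
      8 * al m * cexp (m * t * I) := by
  have hp : Function.Periodic
      (fun s : ℝ => (‖cexp (t * I) - cexp (s * I)‖ : ℂ) * cexp (m * s * I)) (2 * π) := by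
    intro s
    have e1 : cexp (((s + 2 * π : ℝ) : ℂ) * I) = cexp (s * I) := by
      push_cast; rw [add_mul, Complex.exp_add, exp_two_pi_mul_I, mul_one]
    have e2 : cexp (m * ((s + 2 * π : ℝ) : ℂ) * I) = cexp (m * s * I) := by
      rw [show m * ((s + 2 * π : ℝ) : ℂ) * I = m * s * I + m * (2 * π * I) by push_cast; ring,
        Complex.exp_add, exp_int_mul_two_pi_mul_I, mul_one]
    simp only [e1, e2]
  have h := hp.intervalIntegral_add_eq 0 t
  rw [zero_add] at h
  rw [h, ← integral_chord0, ← intervalIntegral.integral_mul_const]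
  have h2 := intervalIntegral.integral_comp_add_left (a := 0) (b := 2 * π)
    (fun s : ℝ => (‖cexp (t * I) - cexp (s * I)‖ : ℂ) * cexp (m * s * I)) t
  rw [add_zero] at h2
  rw [← h2]
  refine intervalIntegral.integral_congr fun u _ => ?_
  have e1 : cexp (t * I) - cexp (((t + u : ℝ) : ℂ) * I) = -cexp (t * I) * (cexp (I * u) - 1) := by
    push_cast; rw [add_mul, Complex.exp_add, mul_comm I]; ring
  have e2 : cexp (m * ((t + u : ℝ) : ℂ) * I) = cexp (m * u * I) * cexp (m * t * I) := by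
    rw [← Complex.exp_add]; congr 1; push_cast; ring
  rw [e1, e2, norm_mul, norm_neg, norm_exp_ofReal_mul_I, one_mul]
  ring

theorem integral_term (N : ℕ) (t : ℝ) :
    ∫ s in (0 : ℝ)..2 * π, (‖cexp (t * I) - cexp (s * I)‖ : ℂ) *
      ∑ k ∈ range (N + 1), bn k (t + s) * gn (N - k) s = 8 * mc N := by
  have h1 : ∀ s : ℝ, (‖cexp (t * I) - cexp (s * I)‖ : ℂ) *
      ∑ k ∈ range (N + 1), bn k (t + s) * gn (N - k) s =
      ∑ k ∈ range (N + 1), ∑ i ∈ range (k + 1), ∑ p ∈ Icc (-(N : ℤ)) N,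
        ((bc i : ℂ) * bc (k - i) * cf (N - k) (p + (k - 2 * i)) *
          cexp (-((k - 2 * i : ℤ) * t * I))) * ((‖cexp (t * I) - cexp (s * I)‖ : ℂ) *
            cexp ((2 * p + (k - 2 * i) : ℤ) * s * I)) := by
    intro s
    rw [mul_sum]
    refine sum_congr rfl fun k hk => ?_
    have hk := mem_range.1 hk
    rw [bn, sum_mul, mul_sum]
    refine sum_congr rfl fun i hi => ?_
    have hi := mem_range.1 hi
    rw [gn_complex, ← sum_shift (fun r => (cf (N - k) r : ℂ) * cexp (2 * r * s * I)) (N - k) N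
      (k - 2 * i) (fun r hr => by rw [cf_supp _ _ (Or.inl hr)]; simp)
      (by have : |(k : ℤ) - 2 * i| ≤ k := abs_le.2 ⟨by omega, by omega⟩
          omega), mul_sum, mul_sum]
    refine sum_congr rfl fun p _ => ?_
    have : cexp (-((k - 2 * i : ℤ) * ((t + s : ℝ) : ℂ) * I)) *
        cexp (2 * (p + (k - 2 * i) : ℤ) * s * I) =
        cexp (-((k - 2 * i : ℤ) * t * I)) * cexp ((2 * p + (k - 2 * i) : ℤ) * s * I) := by
      rw [← Complex.exp_add, ← Complex.exp_add]; congr 1; push_cast; ring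
    linear_combination (‖cexp (t * I) - cexp (s * I)‖ : ℂ) * bc i * bc (k - i) *
      cf (N - k) (p + (k - 2 * i)) * this
  simp only [h1]
  rw [intervalIntegral.integral_finsetSum fun k _ => by
    apply Continuous.intervalIntegrable; fun_prop]
  have h2 : ∀ k : ℕ, ∫ s in (0 : ℝ)..2 * π, ∑ i ∈ range (k + 1), ∑ p ∈ Icc (-(N : ℤ)) N,
        ((bc i : ℂ) * bc (k - i) * cf (N - k) (p + (k - 2 * i)) *
          cexp (-((k - 2 * i : ℤ) * t * I))) * ((‖cexp (t * I) - cexp (s * I)‖ : ℂ) *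
            cexp ((2 * p + (k - 2 * i) : ℤ) * s * I)) =
      ∑ p ∈ Icc (-(N : ℤ)) N, ∑ i ∈ range (k + 1), 8 * cexp (2 * p * t * I) *
        (bc i * bc (k - i) * al (2 * p + (k - 2 * i)) * cf (N - k) (p + (k - 2 * i)) : ℚ) := by
    intro k
    rw [intervalIntegral.integral_finsetSum fun k _ => by
      apply Continuous.intervalIntegrable; fun_prop, sum_comm]
    refine sum_congr rfl fun i _ => ?_
    rw [intervalIntegral.integral_finsetSum fun k _ => by
      apply Continuous.intervalIntegrable; fun_prop]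
    refine sum_congr rfl fun p _ => ?_
    rw [intervalIntegral.integral_const_mul, integral_chord]
    have : cexp (-((k - 2 * i : ℤ) * t * I)) * cexp ((2 * p + (k - 2 * i) : ℤ) * t * I) =
        cexp (2 * p * t * I) := by
      rw [← Complex.exp_add]; congr 1; push_cast; ring
    rw [← this]
    simp only [Rat.cast_mul]
    ring
  simp only [h2]
  rw [sum_comm]
  simp only [← mul_sum, ← Rat.cast_sum]
  change ∑ p ∈ Icc (-(N : ℤ)) N, 8 * cexp (2 * p * t * I) * (ee N p : ℚ) = _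
  rw [sum_eq_single 0 (fun p _ hp => by simp [ee_ne N hp]) (fun h => absurd (by simp) h), ee_zero]
  simp

theorem hasSum_pot (h0 : 0 ≤ q) (h1 : q ≤ 23 / 50) (t : ℝ) :
    HasSum (fun N => (mc N : ℝ) * q ^ N) ((∫ s in (0 : ℝ)..2 * π,
      ‖cexp (t * I) - cexp (s * I)‖ * ‖1 - q * cexp ((t + s : ℝ) * I)‖ * ff q s) / 8) := by
  have hb : ∀ (k : ℕ) (v : ℝ), ‖(q : ℂ) ^ k * bn k v‖ ≤ (23 / 50 : ℝ) ^ k := fun k v => by
    rw [norm_mul, norm_pow, Complex.norm_real, Real.norm_of_nonneg h0]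
    exact (mul_le_of_le_one_right (by positivity) (norm_bn_le k v)).trans (pow_le_pow_left₀ h0 h1 k)
  have hg : Summable fun k => (23 / 50 : ℝ) ^ k := summable_geometric_of_lt_one (by norm_num)
    (by norm_num)
  have hS : Summable fun N => ∑ k ∈ range (N + 1),
      (23 / 50 : ℝ) ^ k * ((23 / 50 : ℝ) ^ (N - k) * xn (N - k)) :=
    (summable_norm_sum_mul_range_of_summable_norm (f := fun k => (23 / 50 : ℝ) ^ k)
      (g := fun n => (23 / 50 : ℝ) ^ n * xn n) hg.norm summable_Q.norm).of_norm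
  have hc : ∀ s : ℝ, ‖cexp (t * I) - cexp (s * I)‖ ≤ 2 := fun s =>
    (norm_sub_le _ _).trans (by simp [norm_exp_ofReal_mul_I]; norm_num)
  have key := intervalIntegral.hasSum_integral_of_dominated_convergence (μ := MeasureTheory.volume)
    (a := 0) (b := 2 * π)
    (F := fun N s => (‖cexp (t * I) - cexp (s * I)‖ : ℂ) * ∑ k ∈ range (N + 1),
      ((q : ℂ) ^ k * bn k (t + s)) * ((q ^ (N - k) * gn (N - k) s : ℝ) : ℂ))
    (f := fun s => ((‖cexp (t * I) - cexp (s * I)‖ * ‖1 - q * cexp ((t + s : ℝ) * I)‖ *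
      ff q s : ℝ) : ℂ))
    (fun N _ => 2 * ∑ k ∈ range (N + 1),
      (23 / 50 : ℝ) ^ k * ((23 / 50 : ℝ) ^ (N - k) * xn (N - k)))
    (fun N => by
      apply Continuous.aestronglyMeasurable
      have := continuous_gn
      unfold bn
      fun_prop)
    (fun N => MeasureTheory.ae_of_all _ fun s _ => by
      rw [norm_mul, Complex.norm_real, norm_norm]
      refine mul_le_mul (hc s) ((norm_sum_le _ _).trans (sum_le_sum fun k _ => ?_))
        (norm_nonneg _) (by norm_num)
      rw [norm_mul, Complex.norm_real]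
      exact mul_le_mul (hb _ _) (norm_term_le h0 h1 _ _) (norm_nonneg _) (by positivity))
    (MeasureTheory.ae_of_all _ fun _ _ => hS.mul_left 2) intervalIntegrable_const
    (MeasureTheory.ae_of_all _ fun s _ => by
      have s1 : Summable fun k => ‖(q : ℂ) ^ k * bn k (t + s)‖ :=
        Summable.of_nonneg_of_le (fun _ => norm_nonneg _) (fun k => hb k _) hg
      have s2 : Summable fun n => ‖((q ^ n * gn n s : ℝ) : ℂ)‖ := by
        simpa only [Complex.norm_real] using summable_norm_ff h0 h1 s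
      have := (summable_norm_sum_mul_range_of_summable_norm s1 s2).of_norm.hasSum
      rw [← tsum_mul_tsum_eq_tsum_sum_range_of_summable_norm s1 s2, tsum_bn h0 (by linarith),
        ← ofReal_tsum] at this
      have h := this.mul_left (‖cexp (t * I) - cexp (s * I)‖ : ℂ)
      rw [← mul_assoc, ← ofReal_mul, ← ofReal_mul] at h
      exact h)
  rw [intervalIntegral.integral_ofReal] at key
  have h3 : ∀ N : ℕ, ∫ s in (0 : ℝ)..2 * π, (‖cexp (t * I) - cexp (s * I)‖ : ℂ) *
      ∑ k ∈ range (N + 1), ((q : ℂ) ^ k * bn k (t + s)) * ((q ^ (N - k) * gn (N - k) s : ℝ) : ℂ) =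
      (((mc N : ℝ) * q ^ N * 8 : ℝ) : ℂ) := by
    intro N
    push_cast
    rw [mul_comm (mc N : ℂ), mul_assoc, mul_comm (mc N : ℂ), ← integral_term N t,
      ← intervalIntegral.integral_const_mul]
    refine intervalIntegral.integral_congr fun s _ => ?_
    rw [mul_left_comm, mul_sum (a := (q : ℂ) ^ N)]
    congr 1
    refine sum_congr rfl fun k hk => ?_
    have : (q : ℂ) ^ N = q ^ k * q ^ (N - k) := by
      rw [← pow_add]; congr 1; have := mem_range.1 hk; omega
    rw [this]; ring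
  simp only [h3, hasSum_ofReal] at key
  simpa using key.div_const 8

theorem integral_gn (n : ℕ) : ∫ s in (0 : ℝ)..2 * π, gn n s = 2 * π * cf n 0 := by
  unfold gn
  rw [intervalIntegral.integral_finsetSum fun k _ => by
    apply Continuous.intervalIntegrable; fun_prop,
    sum_eq_single 0 (fun r _ hr => ?_) (fun h => absurd (by simp) h)]
  · simp
  · have hr' : (2 * r : ℝ) ≠ 0 := by exact_mod_cast (by omega : 2 * r ≠ 0)
    rw [intervalIntegral.integral_const_mul, intervalIntegral.integral_comp_mul_left _ hr',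
      integral_cos]
    have : (2 * r : ℝ) * (2 * π) = ((4 * r : ℤ) : ℝ) * π := by push_cast; ring
    rw [this, Real.sin_int_mul_pi]
    simp

theorem integral_ff (h0 : 0 ≤ q) (h1 : q ≤ 23 / 50) :
    ∫ s in (0 : ℝ)..2 * π, ff q s = 2 * π := by
  have key := intervalIntegral.hasSum_integral_of_dominated_convergence (μ := MeasureTheory.volume)
    (a := 0) (b := 2 * π) (F := fun n s => q ^ n * gn n s) (f := ff q)
    (fun n _ => (23 / 50 : ℝ) ^ n * xn n)
    (fun n => (continuous_const.mul (continuous_gn n)).aestronglyMeasurable)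
    (fun n => MeasureTheory.ae_of_all _ fun s _ => norm_term_le h0 h1 n s)
    (MeasureTheory.ae_of_all _ fun _ _ => summable_Q) intervalIntegrable_const
    (MeasureTheory.ae_of_all _ fun s _ => (summable_norm_ff h0 h1 s).of_norm.hasSum)
  simp only [intervalIntegral.integral_const_mul, integral_gn] at key
  rw [← key.tsum_eq, tsum_eq_single 0]
  · simp [cf_zero]
  · intro n hn
    obtain ⟨m, rfl⟩ := Nat.exists_eq_succ_of_ne_zero hn
    simp [cf_succ_zero]

end Pool.Agent.Lib.MP_efb7ef_gt
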