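import Pool.Agent.Lib.MP_efb7ef_gt.Kernel

/-! The density is nonnegative for `q ≤ 11/25` and negative at `π/2` for `q = 9/20`. -/

namespace Pool.Agent.Lib.MP_efb7ef_gt

open Finset Real

def cZ (a : ℕ) (r : ℤ) : ℤ := ∑ n ∈ range 41, (a ^ n * 4000 ^ (40 - n) : ℕ) * cz n r

def wW : ℕ := 4000 ^ 40 * dD

def pz (p : List ℤ) (k : ℤ) : ℤ := if k.natAbs ≤ 12 then p.getD (k + 12).toNat 0 else 0

def sg (p : List ℤ) (r : ℤ) : ℤ := ∑ j ∈ range (2 * 12 + 1), pz p (j - 12) * pz p (r + (j - 12))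

def df (a : ℕ) (p : List ℤ) (r : ℤ) : ℤ := cZ a r * 10 ^ 18 - sg p r * wW

/-- A sum of squares certificate. -/
def Cert (a e : ℕ) (p : List ℤ) : Prop :=
  e * wW * 10 ^ 12 + ∑ j ∈ range (2 * 40 + 1), (if j = 40 then 0 else |df a p (j - 40)|) ≤ df a p 0

instance (a e : ℕ) (p : List ℤ) : Decidable (Cert a e p) := by unfold Cert; infer_instance

theorem wW_pos : (0 : ℝ) < wW := by have := dD_pos; unfold wW; positivity

theorem poly_eq (a : ℕ) (s : ℝ) : ∑ n ∈ range 41, ((a : ℝ) / 1000) ^ n * gn n s =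
    (∑ r ∈ Icc (-((40 : ℕ) : ℤ)) (40 : ℕ), (cZ a r : ℝ) * cos (2 * r * s)) / wW := by
  rw [eq_div_iff wW_pos.ne']
  simp only [cZ, Int.cast_sum, sum_mul]
  rw [sum_comm]
  refine sum_congr rfl fun n hn => ?_
  have hn := mem_range.1 hn
  have := sum_shift (fun r => (cf n r : ℝ) * cos (2 * r * s)) n 40 0
    (fun r hr => by rw [cf_supp _ _ (Or.inl hr)]; simp) (by simp; omega)
  simp only [add_zero] at this
  rw [gn, ← this, mul_sum, sum_mul]
  refine sum_congr rfl fun r _ => ?_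
  have h : (cz n r : ℝ) = 4 ^ n * dD * cf n r := by exact_mod_cast cz_eq (by omega : n ≤ 40) r
  have e : (4000 : ℝ) ^ 40 = 4000 ^ (40 - n) * (4 ^ n * 1000 ^ n) := by
    rw [← mul_pow, show (4 : ℝ) * 1000 = 4000 by norm_num, ← pow_add]; congr 1; omega
  rw [Int.cast_mul, h, wW, Int.cast_natCast, Nat.cast_mul, Nat.cast_mul, Nat.cast_pow,
    Nat.cast_pow, Nat.cast_pow, Nat.cast_ofNat, e, div_pow]
  field_simp

theorem sos (p : List ℤ) (s : ℝ) :
    0 ≤ ∑ r ∈ Icc (-((40 : ℕ) : ℤ)) (40 : ℕ), (sg p r : ℝ) * cos (2 * r * s) := by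
  have h1 : ∀ r, sg p r = ∑ k ∈ Icc (-((12 : ℕ) : ℤ)) (12 : ℕ), pz p k * pz p (r + k) := fun r =>
    (sum_Icc_eq (fun k => pz p k * pz p (r + k)) 12).symm
  simp only [h1, Int.cast_sum, sum_mul]
  rw [sum_comm]
  have h2 : ∀ k ∈ Icc (-((12 : ℕ) : ℤ)) (12 : ℕ), ∑ r ∈ Icc (-((40 : ℕ) : ℤ)) (40 : ℕ),
      ((pz p k * pz p (r + k) : ℤ) : ℝ) * cos (2 * r * s) =
      ∑ j ∈ Icc (-((12 : ℕ) : ℤ)) (12 : ℕ), ((pz p k * cos (2 * k * s)) * (pz p j * cos (2 * j * s))
        + (pz p k * sin (2 * k * s)) * (pz p j * sin (2 * j * s))) := by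
    intro k hk
    rw [mem_Icc] at hk
    rw [← sum_shift (fun j => ((pz p k * cos (2 * k * s)) * (pz p j * cos (2 * j * s))
        + (pz p k * sin (2 * k * s)) * (pz p j * sin (2 * j * s)) : ℝ)) 12 40 k
      (fun r hr => by rw [lt_abs] at hr; simp [pz, show ¬ r.natAbs ≤ 12 by omega])
      (by have : |k| ≤ 12 := abs_le.2 ⟨by omega, by omega⟩
          omega)]
    refine sum_congr rfl fun r _ => ?_
    rw [show 2 * r * s = 2 * ((r + k : ℤ) : ℝ) * s - 2 * k * s by push_cast; ring, cos_sub]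
    push_cast
    ring
  rw [sum_congr rfl h2]
  simp only [sum_add_distrib, ← sum_mul_sum]
  exact add_nonneg (mul_self_nonneg _) (mul_self_nonneg _)

theorem Cert.sound {a e : ℕ} {p : List ℤ} (h : Cert a e p) (s : ℝ) :
    (e : ℝ) / 10 ^ 6 ≤ ∑ n ∈ range 41, ((a : ℝ) / 1000) ^ n * gn n s := by
  rw [poly_eq, le_div_iff₀ wW_pos]
  have h1 := sos p s
  have h2 : (e : ℝ) * wW * 10 ^ 12 ≤
      ∑ r ∈ Icc (-((40 : ℕ) : ℤ)) (40 : ℕ), (df a p r : ℝ) * cos (2 * r * s) := by
    have h' := (Int.cast_le (R := ℝ)).2 h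
    rw [sum_Icc_eq]
    have : ∑ j ∈ range (2 * 40 + 1), (if j = 40 then (df a p 0 : ℝ) else 0) = df a p 0 := by simp
    rw [← this] at h'
    push_cast at h' ⊢
    rw [← le_sub_iff_add_le, ← sum_sub_distrib] at h'
    refine le_trans (le_of_eq (by norm_num)) (h'.trans (sum_le_sum fun j _ => ?_))
    split_ifs with hj
    · simp [hj]
    · rw [zero_sub]
      refine neg_le.1 ((neg_le_abs _).trans ?_)
      rw [abs_mul]
      exact mul_le_of_le_one_right (abs_nonneg _) (abs_cos_le_one _)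
  simp only [df, Int.cast_sub, Int.cast_mul, sub_mul, sum_sub_distrib, Int.cast_natCast,
    mul_right_comm _ (wW : ℝ), mul_right_comm _ (((10 ^ 18 : ℤ) : ℝ)), ← sum_mul] at h2
  push_cast at h2
  have := mul_nonneg h1 wW_pos.le
  push_cast at this ⊢
  linarith

theorem interp {u v q : ℝ} (hu : 0 ≤ u) (h1 : u ≤ q) (h2 : q ≤ v) (n : ℕ) :
    0 ≤ (v - q) * u ^ n + (q - u) * v ^ n - (v - u) * q ^ n ∧
    ((v - q) * u ^ n + (q - u) * v ^ n - (v - u) * q ^ n) * v ^ 2 ≤
      (v - u) * ((q - u) * (v - q)) * (n * (n - 1) / 2 * v ^ n) := by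
  have hq := hu.trans h1
  have hv := hq.trans h2
  have huv := h1.trans h2
  have hd : ∀ n : ℕ, (v ^ n - u ^ n) * v ≤ n * v ^ n * (v - u) := by
    intro n
    induction n with
    | zero => simp
    | succ n ih =>
      have a1 := mul_le_mul_of_nonneg_left ih hv
      have a2 := mul_le_mul_of_nonneg_right (pow_le_pow_left₀ hu huv n)
        (mul_nonneg hv (sub_nonneg.2 huv))
      push_cast
      rw [pow_succ, pow_succ]
      nlinarith
  have hp := mul_nonneg (sub_nonneg.2 h1) (sub_nonneg.2 h2)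
  induction n with
  | zero => constructor <;> simp
  | succ n ih =>
    have e : (v - q) * u ^ (n + 1) + (q - u) * v ^ (n + 1) - (v - u) * q ^ (n + 1) =
        q * ((v - q) * u ^ n + (q - u) * v ^ n - (v - u) * q ^ n) +
          (q - u) * (v - q) * (v ^ n - u ^ n) := by ring
    rw [e]
    refine ⟨add_nonneg (mul_nonneg hq ih.1) (mul_nonneg hp
      (sub_nonneg.2 (pow_le_pow_left₀ hu huv n))), ?_⟩
    have a1 := mul_le_mul_of_nonneg_left ih.2 hv
    have a2 := mul_le_mul_of_nonneg_right h2 (mul_nonneg ih.1 (sq_nonneg v))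
    have a3 := mul_le_mul_of_nonneg_left (hd n) (mul_nonneg hp hv)
    push_cast
    rw [pow_succ v n]
    nlinarith

theorem step {a b e e' : ℕ} {p p' : List ℤ} (ha : Cert a e p) (hb : Cert b e' p')
    (h : a < b ∧ b ≤ 460 ∧ e' ≤ e ∧ (((b : ℚ) - a) / 1000) ^ 2 / 4 * (∑ n ∈ range 41,
      n * (n - 1) / 2 * ((b : ℚ) / 1000) ^ n * xb n) / ((b : ℚ) / 1000) ^ 2 +
        ((b : ℚ) / 1000 * (50 / 23)) ^ 41 / 1000 ≤ e' / 10 ^ 6)
    {q : ℝ} (h1 : (a : ℝ) / 1000 ≤ q) (h2 : q ≤ (b : ℝ) / 1000) (s : ℝ) : 0 ≤ ff q s := by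
  obtain ⟨hab, hb', he, h⟩ := h
  have h := (Rat.cast_le (K := ℝ)).2 h
  push_cast at h
  have a1 := ha.sound s
  have a2 := hb.sound s
  have he' : (e' : ℝ) / 10 ^ 6 ≤ e / 10 ^ 6 := by gcongr
  have huv : (a : ℝ) / 1000 < (b : ℝ) / 1000 := by gcongr
  have hv' : (b : ℝ) / 1000 ≤ 23 / 50 := by
    have : (b : ℝ) ≤ 460 := by exact_mod_cast hb'
    linarith
  have hu : (0 : ℝ) ≤ a / 1000 := by positivity
  rw [sub_div] at h
  generalize (a : ℝ) / 1000 = u at *
  generalize (b : ℝ) / 1000 = v at *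
  generalize (e' : ℝ) / 10 ^ 6 = ε at *
  have hq := hu.trans h1
  have hv : 0 < v := lt_of_le_of_lt hu huv
  have t1 := (abs_le.1 (ff_tail hq (h2.trans hv') s)).1
  have t2 : (q * (50 / 23)) ^ 41 / 1000 ≤ (v * (50 / 23)) ^ 41 / 1000 := by gcongr
  set X := ∑ n ∈ range 41, (n : ℝ) * (n - 1) / 2 * v ^ n * xb n with hX
  have key : ((v - q) * ∑ n ∈ range 41, u ^ n * gn n s + (q - u) * ∑ n ∈ range 41, v ^ n * gn n s -
      (v - u) * ∑ n ∈ range 41, q ^ n * gn n s) * v ^ 2 ≤ (v - u) * ((v - u) ^ 2 / 4) * X := by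
    rw [hX]
    simp only [mul_sum, ← sum_add_distrib, ← sum_sub_distrib, sum_mul]
    refine sum_le_sum fun n hn => ?_
    have b1 := interp hu h1 h2 n
    have b2 : gn n s ≤ xb n := ((le_abs_self _).trans (abs_gn_le n s)).trans
      (by exact_mod_cast xn_le_xb (Nat.lt_succ_iff.1 (mem_range.1 hn)))
    have b3 : (0 : ℝ) ≤ xb n := by unfold xb; push_cast; positivity
    have b4 : (0 : ℝ) ≤ n * (n - 1) / 2 * v ^ n := by
      refine mul_nonneg ?_ (by positivity)
      rcases Nat.eq_zero_or_pos n with rfl | hn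
      · simp
      · have : (1 : ℝ) ≤ n := by exact_mod_cast hn
        have := sub_nonneg.2 this
        positivity
    have b5 : (v - u) * ((q - u) * (v - q)) ≤ (v - u) * ((v - u) ^ 2 / 4) :=
      mul_le_mul_of_nonneg_left (by nlinarith [sq_nonneg (q - u - (v - q))]) (by linarith)
    have b6 := mul_le_mul_of_nonneg_left b2 (mul_nonneg b1.1 (sq_nonneg v))
    have b7 := mul_le_mul_of_nonneg_right (b1.2.trans (mul_le_mul_of_nonneg_right b5 b4)) b3
    linarith
  rw [← le_div_iff₀ (by positivity)] at key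
  have k2 : (v - u) * (ε - (v - u) ^ 2 / 4 * X / v ^ 2) ≤
      (v - u) * ∑ n ∈ range 41, q ^ n * gn n s := by
    have c1 := mul_le_mul_of_nonneg_left (he'.trans a1) (sub_nonneg.2 h2)
    have c2 := mul_le_mul_of_nonneg_left a2 (sub_nonneg.2 h1)
    have : (v - u) * ((v - u) ^ 2 / 4) * X / v ^ 2 = (v - u) * ((v - u) ^ 2 / 4 * X / v ^ 2) := by
      ring
    nlinarith
  have k3 := le_of_mul_le_mul_left k2 (sub_pos.2 huv)
  linarith

theorem cert0 : Cert 0 960000 [200000000, 0, 0, 0, 0, 0, 0, 0, 0, 0, 0, 0, 0, 0, 0, 0, 0, 0, 0, 0,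
    0, 0, 0, 0, 0] := by decide +kernel

theorem cert199 : Cert 199 244163 [595650866, 615283297, 146406166, 31348095, 6566196, 1360329,
    279833, 57278, 11681, 2375, 482, 98, 20, 4, 1, 0, 0, 0, 0, 0, 0, 0, 0, 0, 0] := by decide +kernel

theorem cert291 : Cert 291 85490 [568749770, 713917410, 270559288, 85944770, 26382321, 7997613,
    2406698, 720579, 214939, 63929, 18971, 5619, 1662, 491, 145, 43, 13, 4, 1, 0, 0, 0, 0, 0, 0] := by
    decide +kernel

theorem cert341 : Cert 341 38503 [526103729, 737381068, 347947683, 131643290, 47507113, 16888825,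
    5957462, 2090622, 730876, 254770, 88604, 30757, 10660, 3690, 1276, 441, 152, 52, 18, 6, 2, 1, 0,
    0, 0] := by decide +kernel

theorem cert372 : Cert 372 20193 [490607117, 740235247, 397870605, 166621420, 65826764, 25551040,
    9835418, 3765931, 1436435, 546292, 207279, 78499, 29682, 11209, 4228, 1593, 600, 226, 85, 32, 12,
    4, 2, 1, 0] := by decide +kernel

theorem cert393 : Cert 393 11561 [462676283, 736566185, 431894880, 193442504, 81008094, 33248227,
    13524827, 5471765, 2205146, 886059, 355200, 142122, 56776, 22652, 9027, 3594, 1430, 568, 226, 90,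
    36, 14, 6, 2, 1] := by decide +kernel

theorem cert408 : Cert 408 6949 [440715237, 730947223, 456052479, 214231119, 93419528, 39839261,
    16829209, 7069449, 2958026, 1234029, 513603, 213355, 88490, 36653, 15165, 6268, 2589, 1068, 441,
    182, 75, 31, 13, 5, 2] := by decide +kernel

theorem cert419 : Cert 419 4275 [423416804, 725135794, 473612464, 230390456, 103444830, 45338488,
    19673587, 8488094, 3647649, 1562842, 668023, 284996, 121394, 51640, 21942, 9314, 3950, 1674, 709,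
    300, 127, 54, 23, 10, 4] := by decide +kernel

theorem cert427 : Cert 427 2665 [410061734, 719966510, 486298822, 242670853, 111277990, 49735025,
    21998198, 9673201, 4236561, 1849903, 805852, 350372, 152095, 65936, 28552, 12352, 5339, 2306, 995,
    429, 185, 80, 34, 15, 6] := by decide +kernel

theorem cert433 : Cert 433 1626 [399464522, 715552279, 495801988, 252215649, 117487703, 53277358,
    23900552, 10658276, 4733824, 2096157, 925983, 408271, 179723, 79010, 34694, 15220, 6671, 2922,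
    1279, 559, 245, 107, 47, 20, 9] := by decide +kernel

theorem cert437 : Cert 437 1007 [391979719, 712353042, 502179643, 258776886, 121811914, 55770754,
    25253675, 11366415, 5095164, 2277063, 1015213, 451756, 200706, 89050, 39465, 17473, 7730, 3417,
    1509, 666, 294, 130, 57, 25, 11] := by decide +kernel

theorem cert440 : Cert 440 579 [385985268, 709826977, 507045334, 263844249, 125175706, 57722774,
    26319930, 11928240, 5383878, 2422661, 1087561, 487279, 217977, 97378, 43452, 19371, 8628, 3840,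
    1708, 759, 337, 150, 66, 29, 13] := by decide +kernel

theorem ff_nonneg {q : ℝ} (h0 : 0 ≤ q) (h1 : q ≤ 11 / 25) (s : ℝ) : 0 ≤ ff q s := by
  by_cases h199 : q ≤ (199 : ℕ) / 1000
  · exact step cert0 cert199 (by decide +kernel) (by simpa using h0) h199 s
  by_cases h291 : q ≤ (291 : ℕ) / 1000
  · exact step cert199 cert291 (by decide +kernel) (by exact_mod_cast (not_le.1 h199).le) h291 s
  by_cases h341 : q ≤ (341 : ℕ) / 1000
  · exact step cert291 cert341 (by decide +kernel) (by exact_mod_cast (not_le.1 h291).le) h341 s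
  by_cases h372 : q ≤ (372 : ℕ) / 1000
  · exact step cert341 cert372 (by decide +kernel) (by exact_mod_cast (not_le.1 h341).le) h372 s
  by_cases h393 : q ≤ (393 : ℕ) / 1000
  · exact step cert372 cert393 (by decide +kernel) (by exact_mod_cast (not_le.1 h372).le) h393 s
  by_cases h408 : q ≤ (408 : ℕ) / 1000
  · exact step cert393 cert408 (by decide +kernel) (by exact_mod_cast (not_le.1 h393).le) h408 s
  by_cases h419 : q ≤ (419 : ℕ) / 1000
  · exact step cert408 cert419 (by decide +kernel) (by exact_mod_cast (not_le.1 h408).le) h419 s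
  by_cases h427 : q ≤ (427 : ℕ) / 1000
  · exact step cert419 cert427 (by decide +kernel) (by exact_mod_cast (not_le.1 h419).le) h427 s
  by_cases h433 : q ≤ (433 : ℕ) / 1000
  · exact step cert427 cert433 (by decide +kernel) (by exact_mod_cast (not_le.1 h427).le) h433 s
  by_cases h437 : q ≤ (437 : ℕ) / 1000
  · exact step cert433 cert437 (by decide +kernel) (by exact_mod_cast (not_le.1 h433).le) h437 s
  exact step cert437 cert440 (by decide +kernel) (by exact_mod_cast (not_le.1 h437).le)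
    (h1.trans (by norm_num)) s

theorem neg_chk : 10 ^ 4 * ∑ j ∈ range (2 * 40 + 1), cZ 450 (j - 40) * (-1) ^ j ≤ -6 * wW := by
  decide +kernel

theorem ff_neg : ff (9 / 20) (π / 2) < 0 := by
  have t1 := (abs_le.1 (ff_tail (q := 9 / 20) (by norm_num) (by norm_num) (π / 2))).2
  have h := poly_eq 450 (π / 2)
  rw [show ((450 : ℕ) : ℝ) / 1000 = 9 / 20 by norm_num, sum_Icc_eq] at h
  have h' := (Int.cast_le (R := ℝ)).2 neg_chk
  have e : ∀ j : ℕ, cos (2 * (((j : ℤ) - (40 : ℕ) : ℤ) : ℝ) * (π / 2)) = (-1) ^ j := fun j => by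
    rw [show 2 * (((j : ℤ) - (40 : ℕ) : ℤ) : ℝ) * (π / 2) = j * π - (20 : ℕ) * (2 * π) by
      push_cast; ring, cos_sub_nat_mul_two_pi, cos_nat_mul_pi]
  simp only [e] at h
  rw [eq_div_iff wW_pos.ne'] at h
  push_cast at h h'
  have h3 : ∑ n ∈ range 41, (9 / 20 : ℝ) ^ n * gn n (π / 2) ≤ -6 / 10 ^ 4 :=
    le_of_mul_le_mul_right (by linarith) wW_pos
  have h4 : ((9 / 20 : ℝ) * (50 / 23)) ^ 41 / 1000 < 5 / 10 ^ 4 := by norm_num
  linarith

end Pool.Agent.Lib.MP_efb7ef_gt
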