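import Pool.Agent.Lib.MP_efb7ef_gt.TabDef

/-! Checking rows of the table. -/

namespace Pool.Agent.Lib.MP_efb7ef_gt

theorem rowsA : ∀ n < 20, RowOK n := by decide +kernel

theorem rowOK20 : RowOK 20 := by decide +kernel

theorem rowOK21 : RowOK 21 := by decide +kernel

theorem rowOK22 : RowOK 22 := by decide +kernel

theorem rowOK23 : RowOK 23 := by decide +kernel

theorem rowOK24 : RowOK 24 := by decide +kernel

theorem rowOK25 : RowOK 25 := by decide +kernel

theorem rowOK26 : RowOK 26 := by decide +kernel

theorem rowOK27 : RowOK 27 := by decide +kernel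

theorem rowOK28 : RowOK 28 := by decide +kernel

end Pool.Agent.Lib.MP_efb7ef_gt
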