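import Pool.Agent.Lib.MP_efb7ef_gt.TabDef

/-! Checking rows of the table. -/

namespace Pool.Agent.Lib.MP_efb7ef_gt

theorem rowOK29 : RowOK 29 := by decide +kernel

theorem rowOK30 : RowOK 30 := by decide +kernel

theorem rowOK31 : RowOK 31 := by decide +kernel

theorem rowOK32 : RowOK 32 := by decide +kernel

theorem rowOK33 : RowOK 33 := by decide +kernel

end Pool.Agent.Lib.MP_efb7ef_gt
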