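import Pool.Agent.Lib.MP_efb7ef_gt.TabDef

/-! Checking rows of the table. -/

namespace Pool.Agent.Lib.MP_efb7ef_gt

theorem rowOK38 : RowOK 38 := by decide +kernel

theorem rowOK39 : RowOK 39 := by decide +kernel

theorem rowOK40 : RowOK 40 := by decide +kernel

end Pool.Agent.Lib.MP_efb7ef_gt
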