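import Pool.Agent.Lib.MP_efb7ef_gt.RowA
import Pool.Agent.Lib.MP_efb7ef_gt.RowB
import Pool.Agent.Lib.MP_efb7ef_gt.RowC
import Pool.Agent.Lib.MP_efb7ef_gt.RowD

/-! The table gives the coefficients of order at most 40. -/

namespace Pool.Agent.Lib.MP_efb7ef_gt

open Finset

theorem rowOK (n : ℕ) (hn : n ≤ 40) : RowOK n := by
  by_cases h : n < 20
  · exact rowsA n h
  · have h' : 20 ≤ n := by omega
    interval_cases n
    exacts [rowOK20, rowOK21, rowOK22, rowOK23, rowOK24, rowOK25, rowOK26, rowOK27, rowOK28,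
      rowOK29, rowOK30, rowOK31, rowOK32, rowOK33, rowOK34, rowOK35, rowOK36, rowOK37, rowOK38,
      rowOK39, rowOK40]

theorem bt_eq : ∀ i < 42, (bt i : ℚ) = 4 ^ i * bc i := by decide +kernel

theorem dvd_lL : ∀ m < 82, lL % (1 - 4 * (m : ℕ) * (m : ℕ)) = 0 := by decide +kernel

theorem az_eq (m : ℤ) (hm : m.natAbs < 82) : (az m : ℚ) = lL * al m := by
  have h := Int.dvd_of_emod_eq_zero (dvd_lL _ hm)
  have e : (1 : ℤ) - 4 * (m.natAbs : ℤ) * (m.natAbs : ℤ) = 1 - 4 * m * m := by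
    rw [mul_assoc, Int.natAbs_mul_self', mul_assoc]
  rw [e] at h
  have hd : ((1 - 4 * m * m : ℤ) : ℚ) = 1 - 4 * (m : ℚ) ^ 2 := by push_cast; ring
  rw [az, Int.cast_div h (by rw [hd]; exact den_ne m), hd, al]
  ring

theorem ct_zero : ct 0 0 = dD ∧ ∀ n < 20, ct (2 * n + 2) 0 = 0 := by decide +kernel

theorem dD_pos : 0 < dD := by decide +kernel

theorem lL_ne : lL ≠ 0 := by decide +kernel

theorem ct_eq (n : ℕ) : n ≤ 40 → ∀ r : ℤ, r.natAbs ≤ n → (2 : ℤ) ∣ n + r →
    (ct n r : ℚ) = 4 ^ n * dD * cf n r := by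
  induction n using Nat.strong_induction_on with
  | _ n ih =>
    intro hn r hr h2
    wlog hpos : 0 ≤ r generalizing r
    · have := this (-r) (by simpa) (by omega) (by omega)
      rwa [cf_neg, ct, Int.natAbs_neg] at this
    rcases hpos.eq_or_lt with rfl | hpos
    · cases n with
      | zero => simp [ct_zero.1, cf_zero]
      | succ n =>
        obtain ⟨m, hm⟩ : ∃ m, n + 1 = 2 * m + 2 := ⟨n / 2, by omega⟩
        rw [cf_succ_zero, hm, ct_zero.2 m (by omega)]
        simp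
    have h1 := rowOK n hn ((n - r.natAbs) / 2) (mem_range.2 (by omega))
    have e : ((n - 2 * ((n - r.natAbs) / 2) : ℕ) : ℤ) = r := by omega
    rw [e, rhs, sum_range_succ'] at h1
    have h3 := ee_ne n hpos.ne'
    rw [ee, sum_range_succ'] at h3
    have h4 := congrArg (Int.cast : ℤ → ℚ) h1
    rw [Int.cast_add, Int.cast_sum, Int.cast_zero] at h4
    have h5 : ∑ k ∈ range n, ((∑ i ∈ range (k + 1 + 1),
        if (r + (((k + 1 : ℕ) : ℤ) - 2 * i)).natAbs ≤ n - (k + 1) then
          bt i * bt (k + 1 - i) * az (2 * r + (((k + 1 : ℕ) : ℤ) - 2 * i)) *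
            ct (n - (k + 1)) (r + (((k + 1 : ℕ) : ℤ) - 2 * i)) else 0 : ℤ) : ℚ) =
        4 ^ n * dD * lL * ∑ k ∈ range n, ∑ i ∈ range (k + 1 + 1),
          bc i * bc (k + 1 - i) * al (2 * r + (((k + 1 : ℕ) : ℤ) - 2 * i)) *
            cf (n - (k + 1)) (r + (((k + 1 : ℕ) : ℤ) - 2 * i)) := by
      rw [mul_sum]
      refine sum_congr rfl fun k hk => ?_
      rw [Int.cast_sum, mul_sum]
      refine sum_congr rfl fun i hi => ?_
      have hk := mem_range.1 hk
      have hi := mem_range.1 hi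
      split_ifs with hc
      · rw [Int.cast_mul, Int.cast_mul, Int.cast_mul, bt_eq i (by omega),
          bt_eq _ (by omega), az_eq _ (by omega), ih _ (by omega) (by omega) _ hc (by omega)]
        have : (4 : ℚ) ^ n = 4 ^ i * 4 ^ (k + 1 - i) * 4 ^ (n - (k + 1)) := by
          rw [← pow_add, ← pow_add]; congr 1; omega
        rw [this]; ring
      · rw [cf_supp _ _ (Or.inl (by rw [lt_abs]; omega))]
        simp
    rw [h5] at h4
    have h0 : bt 0 = 1 := by decide +kernel
    have h0' : bc 0 = 1 := rfl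
    simp only [zero_add, range_one, sum_singleton, Nat.cast_zero, mul_zero, sub_zero, add_zero,
      Nat.sub_zero, hr, if_true, h0, h0', mul_one, one_mul, Int.cast_mul] at h3 h4
    rw [az_eq _ (by omega)] at h4
    have hl : (lL : ℚ) * al (2 * r) ≠ 0 := mul_ne_zero (by exact_mod_cast lL_ne) (al_ne _)
    refine mul_left_cancel₀ hl ?_
    linear_combination h4 - 4 ^ n * dD * lL * h3

end Pool.Agent.Lib.MP_efb7ef_gt
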