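import Pool.Agent.Lib.MP_efb7ef_gt.Data

/-! The integer form of the recursion. -/

namespace Pool.Agent.Lib.MP_efb7ef_gt

open Finset

def bt (i : ℕ) : ℤ := bts.getD i 0

def ct (n : ℕ) (r : ℤ) : ℤ := (rows.getD n []).getD (r.natAbs / 2) 0

def az (m : ℤ) : ℤ := lL / (1 - 4 * m * m)

def rhs (n : ℕ) (p : ℤ) : ℤ := ∑ k ∈ range (n + 1), ∑ i ∈ range (k + 1),
  if (p + (k - 2 * i)).natAbs ≤ n - k then
    bt i * bt (k - i) * az (2 * p + (k - 2 * i)) * ct (n - k) (p + (k - 2 * i)) else 0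

def RowOK (n : ℕ) : Prop := ∀ j ∈ range ((n + 1) / 2), rhs n (n - 2 * j : ℕ) = 0

instance (n : ℕ) : Decidable (RowOK n) := by unfold RowOK; infer_instance

end Pool.Agent.Lib.MP_efb7ef_gt
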